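import Mathlib

open MvPolynomial

namespace Pool.Agent.Results.MP_ca28bb_gt.KamekoNotMono

/-! ### Definitions used in the statement -/

/-- The polynomial algebra P_d = F_2[x_1, ..., x_d]. -/
abbrev P (d : ℕ) : Type := MvPolynomial (Fin d) (ZMod 2)

/-- The total Steenrod square of a polynomial: the value at f of the ring homomorphism from P_d to
P_d[T] that maps x_i to x_i + x_i^2 T. -/
noncomputable def totalSq {d : ℕ} (f : P d) : Polynomial (P d) :=
  eval₂ (Polynomial.C.comp C) (fun i => Polynomial.C (X i) + Polynomial.C (X i ^ 2) * Polynomial.X) f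

/-- The Steenrod square Sq^k f: the coefficient of T^k in the total square of f. -/
noncomputable def Sq {d : ℕ} (k : ℕ) (f : P d) : P d := (totalSq f).coeff k

/-- The linear substitution attached to a matrix w: it maps x_j to the sum over i of w_ij x_i. -/
noncomputable def act {d : ℕ} (w : Matrix (Fin d) (Fin d) (ZMod 2)) (f : P d) : P d :=
  eval₂ C (fun j => ∑ i, C (w i j) * X i) f

/-- Homology classes, written through their coefficients: y stands for the sum over exponent
vectors s of y(s) a^(s), where a^(s) is dual to the monomial x^s. -/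
abbrev H (d : ℕ) : Type := (Fin d → ℕ) → ZMod 2

/-- The pairing of y with a polynomial: a^(s) is dual to x^s. -/
noncomputable def pair {d : ℕ} (y : H d) (f : P d) : ZMod 2 := ∑ s ∈ f.support, y s * coeff s f

/-- Membership in PH_n: y is concentrated in degree n and pairs to zero with Sq^k f for all k > 0
and all f, that is, y is annihilated by all dual Steenrod operations of positive degree. -/
def PH {d : ℕ} (n : ℕ) (y : H d) : Prop :=
  (∀ s : Fin d → ℕ, ∑ i, s i ≠ n → y s = 0) ∧ ∀ k : ℕ, 0 < k → ∀ f : P d, pair y (Sq k f) = 0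

/-- The right action of a matrix on homology: the pairing of y w with f is that of y with w f. -/
noncomputable def actH {d : ℕ} (w : Matrix (Fin d) (Fin d) (ZMod 2)) (y : H d) : H d :=
  fun s => pair y (act w (∏ i, X i ^ s i))

/-- Kameko's map, sending a^(s) to a^(2s+1): the coefficient of the image of y at an exponent vector
all of whose entries are odd, t = 2s+1, is y(s), and the other coefficients are zero. -/
def kameko {d : ℕ} (y : H d) : H d :=
  fun t => if ∀ i, Odd (t i) then y (fun i => (t i - 1) / 2) else 0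

/-- The elements of PH_n whose class in the coinvariants is zero: the additive group generated by
the elements y w - y with y in PH_n and w in GL_d. -/
def zeroClass (d n : ℕ) : AddSubgroup (H d) :=
  AddSubgroup.closure {z | ∃ (w : GL (Fin d) (ZMod 2)) (y : H d), PH n y ∧ z = actH w.1 y - y}

/-- Kameko's squaring operation on coinvariants, from PH_n/zeroClass to PH_(d+2n)/zeroClass, is
injective in degree n. (That it is well defined is shown by kameko_PH and kameko_zeroClass below.) -/
def InjectiveInDegree (d n : ℕ) : Prop :=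
  ∀ y y' : H d, PH n y → PH n y' → kameko y - kameko y' ∈ zeroClass d (d + 2 * n) →
    y - y' ∈ zeroClass d n

/-! ### Linear versions of the operations -/

/-- total square as an algebra homomorphism -/
noncomputable def totalSqA (d : ℕ) : P d →ₐ[ZMod 2] Polynomial (P d) :=
  MvPolynomial.aeval fun i => Polynomial.C (X i) + Polynomial.C (X i ^ 2) * Polynomial.X

/-- Steenrod square as a linear map -/
noncomputable def SqL (d k : ℕ) : P d →ₗ[ZMod 2] P d :=
  ((Polynomial.lcoeff (P d) k).restrictScalars (ZMod 2)) ∘ₗ (totalSqA d).toLinearMap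

/-- linear substitution as an algebra homomorphism -/
noncomputable def actA {d : ℕ} (w : Matrix (Fin d) (Fin d) (ZMod 2)) : P d →ₐ[ZMod 2] P d :=
  MvPolynomial.aeval fun j => ∑ i, C (w i j) * X i

theorem Sq_apply (d k : ℕ) (f : P d) : SqL d k f = (totalSqA d f).coeff k := rfl

theorem monomial_eq_prod {d : ℕ} (u : Fin d →₀ ℕ) :
    (monomial u 1 : P d) = ∏ i, X i ^ u i := by
  rw [monomial_eq, C_1, one_mul, Finsupp.prod_fintype _ _ (by simp)]

theorem zmod2_sq (a : ZMod 2) : a ^ 2 = a := by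
  revert a; decide

theorem totalSq_act {d : ℕ} (w : Matrix (Fin d) (Fin d) (ZMod 2)) (f : P d) :
    totalSqA d (actA w f) = Polynomial.map (actA w : P d →+* P d) (totalSqA d f) := by
  have h : ((totalSqA d).comp (actA w)) =
      (Polynomial.mapAlgHom (actA w)).comp (totalSqA d) := by
    apply MvPolynomial.algHom_ext
    intro j
    have hfr : (∑ i, C (w i j) * X i : P d) ^ 2 = ∑ i, C (w i j) * X i ^ 2 := by
      rw [sum_pow_char]
      refine Finset.sum_congr rfl fun i _ => ?_
      rw [mul_pow, ← map_pow, zmod2_sq]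
    have hC : ∀ a : ZMod 2, totalSqA d (C a) = Polynomial.C (C a) := by
      intro a
      exact (totalSqA d).commutes a
    have h1 : totalSqA d (actA w (X j)) = Polynomial.C (∑ i, C (w i j) * X i) +
        Polynomial.C ((∑ i, C (w i j) * X i) ^ 2) * Polynomial.X := by
      rw [hfr, actA, aeval_X, map_sum, map_sum, map_sum, Finset.sum_mul, ← Finset.sum_add_distrib]
      refine Finset.sum_congr rfl fun i _ => ?_
      rw [map_mul, hC, totalSqA, aeval_X, map_mul, map_mul]
      ring
    rw [AlgHom.comp_apply, h1, AlgHom.comp_apply, Polynomial.coe_mapAlgHom, totalSqA, aeval_X,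
      Polynomial.map_add, Polynomial.map_mul, Polynomial.map_C, Polynomial.map_C, Polynomial.map_X,
      map_pow]
    simp [actA]
  have := congrArg (fun g => g f) h
  simpa using this

theorem Sq_act {d : ℕ} (k : ℕ) (w : Matrix (Fin d) (Fin d) (ZMod 2)) (f : P d) :
    SqL d k (actA w f) = actA w (SqL d k f) := by
  rw [Sq_apply, Sq_apply, totalSq_act, Polynomial.coeff_map]
  rfl

/-- coefficients of the total square of a monomial -/
theorem coeff_Sq_monomial {d : ℕ} (k : ℕ) (u s : Fin d →₀ ℕ) :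
    coeff s (SqL d k (monomial u 1)) =
      if u ≤ s ∧ (s - u).degree = k then ∏ i, ((u i).choose (s i - u i) : ZMod 2) else 0 := by
  have h1 : totalSqA d (monomial u 1) =
      ∑ p ∈ Fintype.piFinset (fun i => Finset.range (u i + 1)),
        Polynomial.C (monomial (u + Finsupp.equivFunOnFinite.symm p)
          (∏ i, ((u i).choose (p i) : ZMod 2))) * Polynomial.X ^ (∑ i, p i) := by
    rw [monomial_eq_prod, map_prod]
    have h2 : ∀ i, totalSqA d (X i ^ u i) = ∑ j ∈ Finset.range (u i + 1),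
        Polynomial.C (X i ^ (u i + j) * C ((u i).choose j : ZMod 2)) * Polynomial.X ^ j := by
      intro i
      rw [map_pow, totalSqA, aeval_X, add_comm, add_pow]
      refine Finset.sum_congr rfl fun j hj => ?_
      have hj' : j ≤ u i := Nat.lt_succ_iff.mp (Finset.mem_range.mp hj)
      have : u i + j = 2 * j + (u i - j) := by omega
      rw [this, pow_add, pow_mul, mul_pow]
      simp only [map_mul, map_pow, map_natCast]
      ring
    rw [Finset.prod_congr rfl fun i _ => h2 i, Finset.prod_univ_sum]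
    refine Finset.sum_congr rfl fun p _ => ?_
    rw [Finset.prod_mul_distrib, Finset.prod_pow_eq_pow_sum, ← map_prod, Finset.prod_mul_distrib,
      ← map_prod]
    congr 2
    have h3 : (monomial (u + Finsupp.equivFunOnFinite.symm p)
        (∏ i, ((u i).choose (p i) : ZMod 2)) : P d) =
        monomial (u + Finsupp.equivFunOnFinite.symm p) 1 * C (∏ i, ((u i).choose (p i) : ZMod 2)) := by
      rw [mul_comm, C_mul_monomial, mul_one]
    rw [h3, monomial_eq_prod]
    rfl
  rw [Sq_apply, h1, Polynomial.finsetSum_coeff, coeff_sum]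
  simp only [Polynomial.coeff_C_mul_X_pow]
  have hdeg : ∀ v : Fin d →₀ ℕ, v.degree = ∑ i, v i := fun v => Finsupp.degree_eq_sum v
  split_ifs with h
  · obtain ⟨h3, h4⟩ := h
    rw [Finset.sum_eq_single (fun i => s i - u i)]
    · have h5 : k = ∑ i, (s i - u i) := by
        rw [← h4, hdeg]; rfl
      rw [if_pos h5, coeff_monomial, if_pos]
      ext i
      have := h3 i
      simp
      omega
    · intro p _ hp
      split_ifs with h6
      · rw [coeff_monomial, if_neg]
        intro h7
        apply hp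
        ext i
        have := DFunLike.congr_fun h7 i
        simp at this
        show p i = s i - u i
        omega
      · simp
    · intro h6
      rw [if_pos (by rw [← h4, hdeg]; rfl), coeff_monomial]
      split_ifs with h7
      · simp only [Fintype.mem_piFinset, Finset.mem_range, not_forall, not_lt] at h6
        obtain ⟨i, hi⟩ := h6
        have hi' : u i + 1 ≤ s i - u i := hi
        refine Finset.prod_eq_zero (Finset.mem_univ i) ?_
        rw [Nat.choose_eq_zero_of_lt hi']
        simp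
      · rfl
  · refine Finset.sum_eq_zero fun p _ => ?_
    split_ifs with h6
    · rw [coeff_monomial, if_neg]
      intro h7
      apply h
      have h8 : ∀ i, u i + p i = s i := by
        intro i
        have := DFunLike.congr_fun h7 i
        simpa using this
      refine ⟨fun i => by have := h8 i; omega, ?_⟩
      rw [hdeg, h6]
      refine Finset.sum_congr rfl fun i _ => ?_
      have := h8 i
      simp
      omega
    · simp

/-- a binomial coefficient that is even -/
theorem choose_spike (c : ℕ) : ∀ u v : ℕ, u + v = 2 ^ c - 1 → v ≠ 0 → ((u.choose v : ℕ) : ZMod 2) = 0 := by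
  induction c with
  | zero => intro u v h hv; simp at h; omega
  | succ c ih =>
    intro u v h hv
    have hl := Choose.choose_modEq_choose_mod_mul_choose_div_nat (n := u) (k := v) (p := 2)
    rw [← ZMod.natCast_eq_natCast_iff] at hl
    rw [hl]
    have h2 : 2 ^ (c + 1) = 2 * 2 ^ c := by ring
    have h3 : 0 < 2 ^ c := by positivity
    rcases Nat.mod_two_eq_zero_or_one u with hu | hu
    · have hv1 : v % 2 = 1 := by omega
      rw [hu, hv1]
      simp
    · have hv1 : v % 2 = 0 := by omega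
      have h4 : ((u / 2).choose (v / 2) : ZMod 2) = 0 := ih (u / 2) (v / 2) (by omega) (by omega)
      rw [Nat.cast_mul, h4, mul_zero]

/-- spikes do not appear in hit polynomials -/
theorem coeff_spike_Sq {d : ℕ} (s : Fin d →₀ ℕ) (hs : ∀ i, ∃ c, s i = 2 ^ c - 1) (k : ℕ) (hk : 0 < k)
    (f : P d) : coeff s (SqL d k f) = 0 := by
  induction f using MvPolynomial.induction_on' with
  | monomial u a =>
    have h1 : (monomial u a : P d) = a • monomial u 1 := by
      rw [smul_monomial, smul_eq_mul, mul_one]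
    rw [h1, map_smul, coeff_smul, coeff_Sq_monomial]
    split_ifs with h
    · obtain ⟨h2, h3⟩ := h
      have : ∃ i, s i - u i ≠ 0 := by
        by_contra hcon
        push Not at hcon
        have : (s - u) = 0 := by
          ext i
          exact hcon i
        rw [this] at h3
        simp at h3
        omega
      obtain ⟨i, hi⟩ := this
      obtain ⟨c, hc⟩ := hs i
      rw [Finset.prod_eq_zero (Finset.mem_univ i), smul_zero]
      apply choose_spike c _ _ _ hi
      have := h2 i
      omega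
    · simp
  | add p q hp hq =>
    rw [map_add, coeff_add, hp, hq, add_zero]

/-- The linear map on P_d sending a monomial x^(2s+1) with all exponents odd to x^s and every
other monomial to 0. Its transpose sends the dual basis element a^(s) to a^(2s+1). -/
noncomputable def kam (d : ℕ) : P d →ₗ[ZMod 2] P d :=
  (MvPolynomial.basisMonomials (Fin d) (ZMod 2)).constr (ZMod 2) fun s =>
    if ∀ i, Odd (s i) then monomial (s.mapRange (fun a => a / 2) rfl) 1 else 0

theorem kam_monomial_one (d : ℕ) (s : Fin d →₀ ℕ) : kam d (monomial s 1) =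
    if ∀ i, Odd (s i) then monomial (s.mapRange (fun a => a / 2) rfl) 1 else 0 := by
  have := (MvPolynomial.basisMonomials (Fin d) (ZMod 2)).constr_basis (ZMod 2) (fun s =>
    if ∀ i, Odd (s i) then (monomial (s.mapRange (fun a => a / 2) rfl) 1 : P d) else 0) s
  rw [MvPolynomial.coe_basisMonomials] at this
  exact this

theorem kam_monomial (d : ℕ) (s : Fin d →₀ ℕ) (a : ZMod 2) : kam d (monomial s a) =
    if ∀ i, Odd (s i) then monomial (s.mapRange (fun a => a / 2) rfl) a else 0 := by
  have h1 : (monomial s a : P d) = a • monomial s 1 := by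
    rw [smul_monomial, smul_eq_mul, mul_one]
  rw [h1, map_smul, kam_monomial_one]
  split_ifs
  · rw [smul_monomial, smul_eq_mul, mul_one]
  · rw [smul_zero]

/-- the exponent vector 2 t + 1 -/
noncomputable def dbl {d : ℕ} (t : Fin d →₀ ℕ) : Fin d →₀ ℕ :=
  Finsupp.equivFunOnFinite.symm fun i => 2 * t i + 1

theorem coeff_kam {d : ℕ} (t : Fin d →₀ ℕ) (f : P d) :
    coeff t (kam d f) = coeff (dbl t) f := by
  induction f using MvPolynomial.induction_on' with
  | monomial v c =>
    rw [kam_monomial, coeff_monomial]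
    split_ifs with h1 h2 h2
    · rw [coeff_monomial, if_pos]
      ext i
      simp [h2, dbl]
      omega
    · rw [coeff_monomial, if_neg]
      intro h3
      apply h2
      ext i
      have h4 := DFunLike.congr_fun h3 i
      simp at h4
      have h5 := h1 i
      simp [dbl, ← h4]
      obtain ⟨r, hr⟩ := h5
      omega
    · exfalso
      apply h1
      intro i
      rw [h2]
      simp [dbl]
    · simp
  | add p q hp hq =>
    rw [map_add, coeff_add, hp, hq, coeff_add]

theorem kam_mul_sq {d : ℕ} (G Q : P d) : kam d (G * Q ^ 2) = kam d G * Q := by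
  induction Q using MvPolynomial.induction_on' with
  | monomial v c =>
    induction G using MvPolynomial.induction_on' with
    | monomial u a =>
      rw [monomial_pow, monomial_mul, kam_monomial, kam_monomial]
      have h : (∀ i, Odd ((u + 2 • v) i)) ↔ (∀ i, Odd (u i)) := by
        refine forall_congr' fun i => ?_
        simp [Nat.odd_add]
      by_cases h1 : ∀ i, Odd (u i)
      · have h2 : Finsupp.mapRange (fun a => a / 2) rfl (u + 2 • v) =
            Finsupp.mapRange (fun a => a / 2) rfl u + v := by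
          ext i
          simp
          omega
        rw [if_pos (h.mpr h1), if_pos h1, monomial_mul, zmod2_sq, h2]
      · rw [if_neg (fun h2 => h1 (h.mp h2)), if_neg h1, zero_mul]
    | add p q hp hq =>
      rw [add_mul, map_add, hp, hq, map_add, add_mul]
  | add p q hp hq =>
    rw [CharTwo.add_sq, mul_add, map_add, hp, hq, mul_add]

theorem mul_add_one_choose_two_mul (a b : ℕ) :
    (((2 * a + 1).choose (2 * b) : ℕ) : ZMod 2) = (a.choose b : ℕ) := by
  have hl := Choose.choose_modEq_choose_mod_mul_choose_div_nat (n := 2 * a + 1) (k := 2 * b) (p := 2)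
  rw [← ZMod.natCast_eq_natCast_iff] at hl
  rw [hl]
  have h1 : (2 * a + 1) % 2 = 1 := by omega
  have h2 : (2 * b) % 2 = 0 := by omega
  have h3 : (2 * a + 1) / 2 = a := by omega
  have h4 : (2 * b) / 2 = b := by omega
  rw [h1, h2, h3, h4]
  simp

theorem even_choose_odd (a b : ℕ) (ha : Even a) (hb : Odd b) : ((a.choose b : ℕ) : ZMod 2) = 0 := by
  have hl := Choose.choose_modEq_choose_mod_mul_choose_div_nat (n := a) (k := b) (p := 2)
  rw [← ZMod.natCast_eq_natCast_iff] at hl
  rw [hl]
  have h1 : a % 2 = 0 := Nat.even_iff.mp ha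
  have h2 : b % 2 = 1 := Nat.odd_iff.mp hb
  rw [h1, h2]
  simp

theorem kam_Sq_monomial {d : ℕ} (k : ℕ) (u : Fin d →₀ ℕ) :
    kam d (SqL d k (monomial u 1)) = if Even k then SqL d (k / 2) (kam d (monomial u 1)) else 0 := by
  have hdeg : ∀ v : Fin d →₀ ℕ, v.degree = ∑ i, v i := fun v => Finsupp.degree_eq_sum v
  ext t
  rw [coeff_kam, coeff_Sq_monomial, kam_monomial_one]
  by_cases hodd : ∀ i, Odd (u i)
  · rw [if_pos hodd]
    obtain ⟨v, hv⟩ : ∃ v : Fin d →₀ ℕ, v = Finsupp.mapRange (fun a => a / 2) rfl u := ⟨_, rfl⟩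
    rw [← hv]
    have huv : ∀ i, u i = 2 * v i + 1 := by
      intro i
      obtain ⟨r, hr⟩ := hodd i
      rw [hv]
      simp
      omega
    have hle : u ≤ dbl t ↔ v ≤ t := by
      constructor
      · intro h i
        have h1 : u i ≤ dbl t i := h i
        simp [dbl] at h1
        have := huv i
        omega
      · intro h i
        have h1 : v i ≤ t i := h i
        simp [dbl]
        have := huv i
        omega
    have hdd : (dbl t - u).degree = 2 * (t - v).degree := by
      rw [hdeg, hdeg, Finset.mul_sum]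
      refine Finset.sum_congr rfl fun i _ => ?_
      have := huv i
      simp [dbl]
      omega
    by_cases hk : Even k
    · rw [if_pos hk, coeff_Sq_monomial]
      have : 2 * (t - v).degree = k ↔ (t - v).degree = k / 2 := by
        obtain ⟨r, hr⟩ := hk
        omega
      simp only [hle, hdd, this]
      split_ifs with h1
      · refine Finset.prod_congr rfl fun i _ => ?_
        have h2 := h1.1 i
        have h3 := huv i
        have h4 : dbl t i - u i = 2 * (t i - v i) := by
          simp [dbl]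
          omega
        rw [h4, h3, mul_add_one_choose_two_mul]
      · rfl
    · rw [if_neg hk, if_neg, coeff_zero]
      rintro ⟨_, h2⟩
      apply hk
      rw [← h2, hdd]
      simp
  · rw [if_neg hodd]
    have h0 : coeff t (if Even k then SqL d (k / 2) 0 else (0 : P d)) = 0 := by
      split_ifs <;> simp
    rw [h0]
    push Not at hodd
    obtain ⟨i, hi⟩ := hodd
    split_ifs with h1
    · apply Finset.prod_eq_zero (Finset.mem_univ i)
      have h2 : u i ≤ dbl t i := h1.1 i
      have h3 : dbl t i = 2 * t i + 1 := by simp [dbl]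
      apply even_choose_odd
      · exact Nat.not_odd_iff_even.mp hi
      · have := Nat.not_odd_iff_even.mp hi
        obtain ⟨r, hr⟩ := this
        exact ⟨t i - r, by omega⟩
    · rfl

theorem kam_Sq {d : ℕ} (k : ℕ) (f : P d) :
    kam d (SqL d k f) = if Even k then SqL d (k / 2) (kam d f) else 0 := by
  induction f using MvPolynomial.induction_on' with
  | monomial v c =>
    have h1 : (monomial v c : P d) = c • monomial v 1 := by
      rw [smul_monomial, smul_eq_mul, mul_one]
    rw [h1, map_smul, map_smul, kam_Sq_monomial, map_smul, smul_ite, map_smul, smul_zero]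
  | add p q hp hq =>
    rw [map_add, map_add, hp, hq, map_add, map_add]
    split_ifs <;> simp

theorem act_mul {d : ℕ} (w w' : Matrix (Fin d) (Fin d) (ZMod 2)) (f : P d) :
    actA (w * w') f = actA w (actA w' f) := by
  have : actA (w * w') = (actA w).comp (actA w') := by
    apply MvPolynomial.algHom_ext
    intro j
    simp only [actA, aeval_X, AlgHom.comp_apply, map_sum, map_mul, Matrix.mul_apply]
    simp only [algHom_C]
    simp only [Finset.mul_sum, Finset.sum_mul]
    rw [Finset.sum_comm]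
    refine Finset.sum_congr rfl fun i _ => Finset.sum_congr rfl fun l _ => ?_
    simp only [algebraMap_eq]
    ring
  rw [this]
  rfl

theorem act_one {d : ℕ} (f : P d) : actA (1 : Matrix (Fin d) (Fin d) (ZMod 2)) f = f := by
  have : actA (1 : Matrix (Fin d) (Fin d) (ZMod 2)) = AlgHom.id _ _ := by
    apply MvPolynomial.algHom_ext
    intro j
    simp [actA, Matrix.one_apply]
  rw [this]
  rfl

theorem isHomogeneous_act {d : ℕ} (w : Matrix (Fin d) (Fin d) (ZMod 2)) (f : P d) (n : ℕ)
    (hf : f.IsHomogeneous n) : (actA w f).IsHomogeneous n := by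
  have := hf.aeval (fun j => ∑ i, C (w i j) * X i) (n := 1) (by
    intro j
    apply IsHomogeneous.sum
    intro i _
    exact (isHomogeneous_C_mul_X _ _))
  rw [one_mul] at this
  exact this

theorem isHomogeneous_prod_X {d : ℕ} (E : Finset (Fin d)) :
    (∏ i ∈ E, X i : P d).IsHomogeneous E.card := by
  have := IsHomogeneous.prod E (fun i => (X i : P d)) (fun _ => 1) (fun i _ => isHomogeneous_X _ i)
  simpa using this

/-- the scalar by which a substitution acts on the all odd part -/
noncomputable def cw {d : ℕ} (w : Matrix (Fin d) (Fin d) (ZMod 2)) : ZMod 2 :=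
  coeff 0 (kam d (actA w (∏ i, X i)))

theorem kam_act_prod {d : ℕ} (w : Matrix (Fin d) (Fin d) (ZMod 2)) (E : Finset (Fin d)) :
    kam d (actA w (∏ i ∈ E, X i)) = if E = Finset.univ then C (cw w) else 0 := by
  have hdeg : ∀ v : Fin d →₀ ℕ, v.degree = ∑ i, v i := fun v => Finsupp.degree_eq_sum v
  have hh := isHomogeneous_act w _ _ (isHomogeneous_prod_X E)
  ext t
  have hdd : (dbl t).degree = 2 * t.degree + d := by
    rw [hdeg, hdeg, Finset.mul_sum]
    simp [dbl, Finset.sum_add_distrib]
  by_cases hE : E = Finset.univ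
  · rw [if_pos hE, coeff_C]
    split_ifs with h0
    · rw [← h0, cw, hE]
    · rw [coeff_kam]
      apply hh.coeff_eq_zero
      rw [hdd, hE, Finset.card_univ, Fintype.card_fin]
      intro h1
      apply h0
      have h2 : t.degree = 0 := by omega
      exact ((Finsupp.degree_eq_zero_iff t).mp h2).symm
  · rw [if_neg hE, coeff_zero, coeff_kam]
    apply hh.coeff_eq_zero
    rw [hdd]
    have : E.card < d := by
      obtain ⟨x, hx⟩ : ∃ x, x ∉ E := by
        by_contra hcon
        push Not at hcon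
        exact hE (Finset.eq_univ_iff_forall.mpr hcon)
      have := Finset.card_lt_univ_of_notMem hx
      simpa using this
    omega

theorem kam_prod_univ {d : ℕ} : kam d (∏ i, X i) = 1 := by
  have h1 : (∏ i, X i : P d) = monomial (Finsupp.equivFunOnFinite.symm fun _ => 1) 1 := by
    rw [monomial_eq_prod]
    simp
  rw [h1, kam_monomial_one, if_pos (by intro i; simp)]
  have : Finsupp.mapRange (fun a => a / 2) rfl
      (Finsupp.equivFunOnFinite.symm fun _ : Fin d => 1) = 0 := by
    ext i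
    simp
  rw [this]
  rfl

theorem kam_act' {d : ℕ} (w : Matrix (Fin d) (Fin d) (ZMod 2)) (f : P d) :
    kam d (actA w f) = C (cw w) * actA w (kam d f) := by
  induction f using MvPolynomial.induction_on' with
  | monomial v c =>
    obtain ⟨E, hE⟩ : ∃ E : Finset (Fin d), E = Finset.univ.filter (fun i => Odd (v i)) := ⟨_, rfl⟩
    obtain ⟨t, ht⟩ : ∃ t : Fin d →₀ ℕ, t = Finsupp.mapRange (fun a => a / 2) rfl v := ⟨_, rfl⟩
    have h1 : (monomial v c : P d) = (∏ i ∈ E, X i) * (monomial t c) ^ 2 := by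
      have h2 : (∏ i ∈ E, X i : P d) = ∏ i, X i ^ (v i % 2) := by
        rw [hE, Finset.prod_filter]
        refine Finset.prod_congr rfl fun i _ => ?_
        split_ifs with h3
        · rw [Nat.odd_iff.mp h3, pow_one]
        · rw [Nat.not_odd_iff.mp h3, pow_zero]
      have h4 : ∀ (s : Fin d →₀ ℕ) (a : ZMod 2), (monomial s a : P d) = C a * ∏ i, X i ^ s i := by
        intro s a
        rw [← monomial_eq_prod, C_mul_monomial, mul_one]
      rw [h2, h4, h4, mul_pow, ← map_pow, zmod2_sq, ← Finset.prod_pow, mul_left_comm,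
        ← Finset.prod_mul_distrib]
      congr 1
      refine Finset.prod_congr rfl fun i _ => ?_
      rw [← pow_mul, ← pow_add, ht]
      congr 1
      simp
      omega
    rw [h1, map_mul, map_pow, kam_mul_sq, kam_act_prod, kam_mul_sq, map_mul]
    split_ifs with h5
    · have h6 : kam d (∏ i ∈ E, X i) = 1 := by
        rw [h5, kam_prod_univ]
      rw [h6, map_one, one_mul]
    · have h6 : kam d (∏ i ∈ E, X i) = 0 := by
        have := kam_act_prod (1 : Matrix (Fin d) (Fin d) (ZMod 2)) E
        rwa [if_neg h5, act_one] at this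
      rw [h6, map_zero, zero_mul, mul_zero]
  | add p q hp hq =>
    rw [map_add, map_add, hp, hq, map_add, map_add, mul_add]

theorem cw_eq_one {d : ℕ} (w w' : Matrix (Fin d) (Fin d) (ZMod 2)) (h : w * w' = 1) : cw w = 1 := by
  have h1 : kam d (∏ i, X i : P d) = C (cw w * cw w') := by
    have h2 : (∏ i, X i : P d) = actA w (actA w' (∏ i, X i)) := by
      rw [← act_mul, h, act_one]
    rw [h2, kam_act', kam_act', kam_prod_univ, map_one, mul_one, map_mul]
    have h3 : actA w (C (cw w') : P d) = C (cw w') := (actA w).commutes _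
    rw [h3]
  rw [kam_prod_univ] at h1
  have h4 : cw w * cw w' = 1 := by
    have := congrArg (coeff 0) h1
    simpa using this.symm
  revert h4
  generalize cw w = a
  generalize cw w' = b
  revert a b
  decide

/-! ### Homology side -/

/-- The degree n part H_n of the graded dual of P_d: the linear functionals on P_d that vanish
on every monomial of degree different from n. -/
def HD (d n : ℕ) : Submodule (ZMod 2) (Module.Dual (ZMod 2) (P d)) where
  carrier := {φ | ∀ s : Fin d →₀ ℕ, s.degree ≠ n → φ (monomial s 1) = 0}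
  add_mem' := by
    intro a b ha hb s hs
    simp [ha s hs, hb s hs]
  zero_mem' := by
    intro s hs
    simp
  smul_mem' := by
    intro c a ha s hs
    simp [ha s hs]

/-- The primitive part PH_n: the functionals y in H_n with y(SqL^k f) = 0 for all k > 0 and all f,
that is, those annihilated by all dual Steenrod operations of positive degree. -/
def PHD (d n : ℕ) : Submodule (ZMod 2) (Module.Dual (ZMod 2) (P d)) where
  carrier := {φ | φ ∈ HD d n ∧ ∀ k : ℕ, 0 < k → ∀ f : P d, φ (SqL d k f) = 0}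
  add_mem' := by
    intro a b ha hb
    refine ⟨(HD d n).add_mem ha.1 hb.1, fun k hk f => ?_⟩
    simp [ha.2 k hk f, hb.2 k hk f]
  zero_mem' := ⟨(HD d n).zero_mem, fun k hk f => by simp⟩
  smul_mem' := by
    intro c a ha
    refine ⟨(HD d n).smul_mem c ha.1, fun k hk f => ?_⟩
    simp [ha.2 k hk f]

theorem H_apply_homogeneous {d n m : ℕ} {φ : Module.Dual (ZMod 2) (P d)} (hφ : φ ∈ HD d n) {f : P d}
    (hf : f.IsHomogeneous m) (hmn : m ≠ n) : φ f = 0 := by
  rw [f.as_sum, map_sum]
  refine Finset.sum_eq_zero fun s hs => ?_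
  have h1 : (monomial s (coeff s f) : P d) = coeff s f • monomial s 1 := by
    rw [smul_monomial, smul_eq_mul, mul_one]
  rw [h1, map_smul, hφ s, smul_zero]
  intro h3
  apply mem_support_iff.mp hs
  apply hf.coeff_eq_zero
  rw [h3]
  exact hmn.symm

/-- The right action of a matrix on functionals: (y w)(f) = y(w f). -/
noncomputable def actD {d : ℕ} (w : Matrix (Fin d) (Fin d) (ZMod 2)) :
    Module.Dual (ZMod 2) (P d) →ₗ[ZMod 2] Module.Dual (ZMod 2) (P d) :=
  (actA w).toLinearMap.dualMap

theorem actD_apply {d : ℕ} (w : Matrix (Fin d) (Fin d) (ZMod 2)) (φ : Module.Dual (ZMod 2) (P d))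
    (f : P d) : actD w φ f = φ (actA w f) := rfl

theorem actD_mem {d n : ℕ} (w : Matrix (Fin d) (Fin d) (ZMod 2)) {φ : Module.Dual (ZMod 2) (P d)}
    (hφ : φ ∈ PHD d n) : actD w φ ∈ PHD d n := by
  refine ⟨fun s hs => ?_, fun k hk f => ?_⟩
  · rw [actD_apply]
    exact H_apply_homogeneous hφ.1 (isHomogeneous_act w _ _ (isHomogeneous_monomial 1 rfl)) hs
  · rw [actD_apply, ← Sq_act]
    exact hφ.2 k hk _

theorem kamD_mem {d n : ℕ} {φ : Module.Dual (ZMod 2) (P d)} (hφ : φ ∈ PHD d n) :
    (kam d).dualMap φ ∈ PHD d (d + 2 * n) := by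
  refine ⟨fun s hs => ?_, fun k hk f => ?_⟩
  · rw [LinearMap.dualMap_apply, kam_monomial_one]
    split_ifs with h
    · apply hφ.1
      intro h1
      apply hs
      rw [Finsupp.degree_eq_sum] at h1 ⊢
      have h2 : ∑ i, s i = ∑ i, (1 + 2 * (Finsupp.mapRange (fun a => a / 2) rfl s) i) := by
        refine Finset.sum_congr rfl fun i _ => ?_
        obtain ⟨r, hr⟩ := h i
        simp
        omega
      rw [h2, Finset.sum_add_distrib, ← Finset.mul_sum, h1]
      simp
    · exact map_zero _
  · rw [LinearMap.dualMap_apply, kam_Sq]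
    split_ifs with h
    · apply hφ.2
      obtain ⟨r, hr⟩ := h
      omega
    · exact map_zero _

theorem kamD_actD {d : ℕ} (w w' : Matrix (Fin d) (Fin d) (ZMod 2)) (h : w * w' = 1)
    (φ : Module.Dual (ZMod 2) (P d)) :
    (kam d).dualMap (actD w φ) = actD w ((kam d).dualMap φ) := by
  refine LinearMap.ext fun f => ?_
  rw [LinearMap.dualMap_apply, actD_apply, actD_apply, LinearMap.dualMap_apply, kam_act',
    cw_eq_one w w' h, map_one, one_mul]

/-! ### spikes and transvections -/

/-- coefficient functional -/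
noncomputable def dl {d : ℕ} (s : Fin d →₀ ℕ) : Module.Dual (ZMod 2) (P d) :=
  MvPolynomial.lcoeff (ZMod 2) s

theorem dl_apply {d : ℕ} (s : Fin d →₀ ℕ) (f : P d) : dl s f = coeff s f := rfl

theorem dl_mem {d n : ℕ} (s : Fin d →₀ ℕ) (hs : ∀ i, ∃ c, s i = 2 ^ c - 1) (hn : s.degree = n) :
    dl s ∈ PHD d n := by
  refine ⟨fun t ht => ?_, fun k hk f => coeff_spike_Sq s hs k hk f⟩
  rw [dl_apply, coeff_monomial, if_neg]
  rintro rfl
  exact ht hn

/-- Sanity check: Kameko's map sends the dual basis element a^(s) to a^(2s+1). -/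
theorem kam_dual_basis {d : ℕ} (s : Fin d →₀ ℕ) : (kam d).dualMap (dl s) = dl (dbl s) :=
  LinearMap.ext fun f => coeff_kam s f

/-- replace exponents at a and b -/
noncomputable def upd {d : ℕ} (u : Fin d →₀ ℕ) (a b : Fin d) (j : ℕ) : Fin d →₀ ℕ :=
  Finsupp.equivFunOnFinite.symm fun i => if i = a then j else if i = b then u b + (u a - j) else u i

theorem act_transvection {d : ℕ} (a b : Fin d) (hab : a ≠ b) (u : Fin d →₀ ℕ) :
    actA (Matrix.transvection b a 1) (monomial u 1 : P d) =
      ∑ j ∈ Finset.range (u a + 1), ((u a).choose j : ZMod 2) • monomial (upd u a b j) 1 := by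
  have h1 : ∀ i, actA (Matrix.transvection b a 1) (X i : P d) = if i = a then X a + X b else X i := by
    intro i
    simp only [actA, aeval_X, Matrix.transvection, Matrix.add_apply, Matrix.one_apply,
      Matrix.single_apply]
    simp only [map_add, add_mul, Finset.sum_add_distrib]
    by_cases hi : i = a
    · subst hi
      simp
    · rw [if_neg hi]
      simp [Ne.symm hi]
  rw [monomial_eq_prod, map_prod, ← Finset.mul_prod_erase _ _ (Finset.mem_univ a), map_pow, h1,
    if_pos rfl, add_pow, Finset.sum_mul]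
  refine Finset.sum_congr rfl fun j hj => ?_
  have hj' : j ≤ u a := Nat.lt_succ_iff.mp (Finset.mem_range.mp hj)
  rw [monomial_eq_prod, smul_eq_C_mul, ← Finset.mul_prod_erase Finset.univ (fun i => (X i : P d) ^ _)
    (Finset.mem_univ a), ← Finset.mul_prod_erase (Finset.univ.erase a) (fun i => (X i : P d) ^ _)
    (Finset.mem_erase.mpr ⟨hab.symm, Finset.mem_univ b⟩),
    ← Finset.mul_prod_erase (Finset.univ.erase a) (fun i => actA _ ((X i : P d) ^ _))
    (Finset.mem_erase.mpr ⟨hab.symm, Finset.mem_univ b⟩)]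
  have h2 : (upd u a b j) a = j := by simp [upd]
  have h3 : (upd u a b j) b = u b + (u a - j) := by simp [upd, hab.symm]
  have h4 : ∏ x ∈ (Finset.univ.erase a).erase b, (X x : P d) ^ (upd u a b j) x =
      ∏ x ∈ (Finset.univ.erase a).erase b, actA (Matrix.transvection b a 1) ((X x : P d) ^ u x) := by
    refine Finset.prod_congr rfl fun x hx => ?_
    simp only [Finset.mem_erase, Finset.mem_univ, and_true] at hx
    rw [map_pow, h1, if_neg hx.2]
    simp [upd, hx.1, hx.2]
  rw [h2, h3, h4, map_pow, h1, if_neg hab.symm, pow_add, map_natCast]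
  ring

theorem dl_transvection {d : ℕ} (a b : Fin d) (hab : a ≠ b) (T u : Fin d →₀ ℕ) :
    actD (Matrix.transvection b a 1) (dl T) (monomial u 1) =
      if (∀ i, i ≠ a → i ≠ b → u i = T i) ∧ u a + u b = T a + T b
        then ((u a).choose (T a) : ZMod 2) else 0 := by
  rw [actD_apply, act_transvection a b hab, map_sum]
  simp only [map_smul, dl_apply, coeff_monomial, smul_eq_mul, mul_ite, mul_one, mul_zero]
  by_cases hle : T a ≤ u a
  · have h1 : upd u a b (T a) = T ↔ (∀ i, i ≠ a → i ≠ b → u i = T i) ∧ u a + u b = T a + T b := by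
      constructor
      · intro h
        refine ⟨fun i hia hib => ?_, ?_⟩
        · have := DFunLike.congr_fun h i
          simpa [upd, hia, hib] using this
        · have := DFunLike.congr_fun h b
          simp [upd, hab.symm] at this
          omega
      · rintro ⟨h, h'⟩
        ext i
        by_cases hia : i = a
        · simp [upd, hia]
        · by_cases hib : i = b
          · simp [upd, hib, hab.symm]
            omega
          · simp [upd, hia, hib, h i hia hib]
    rw [Finset.sum_eq_single (T a)]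
    · simp only [h1]
    · intro j _ hj
      rw [if_neg]
      intro h
      apply hj
      have := DFunLike.congr_fun h a
      simpa [upd] using this
    · intro h
      exact absurd (Finset.mem_range.mpr (by omega)) h
  · rw [Nat.choose_eq_zero_of_lt (by omega), Nat.cast_zero, ite_self]
    refine Finset.sum_eq_zero fun j hj => ?_
    rw [if_neg]
    intro h
    have h1 := DFunLike.congr_fun h a
    simp [upd] at h1
    have := Finset.mem_range.mp hj
    omega

/-! ### the vanishing relation on coinvariants -/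

section vanishing

variable {d : ℕ} (i1 i2 i3 i4 l : Fin d) (N : ℕ)

/-- exponent vector with prescribed entries at i1, i2, i3, i4, entry N at l and 1 elsewhere -/
noncomputable def vec (a b c e : ℕ) : Fin d →₀ ℕ :=
  Finsupp.equivFunOnFinite.symm fun i =>
    if i = i1 then a else if i = i2 then b else if i = i3 then c else if i = i4 then e
    else if i = l then N else 1

theorem forall_vec (h12 : i1 ≠ i2) (h13 : i1 ≠ i3) (h14 : i1 ≠ i4) (h23 : i2 ≠ i3) (h24 : i2 ≠ i4)
    (h34 : i3 ≠ i4) (a b c e : ℕ) (v : Fin d → ℕ) (Q : Fin d → Prop) :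
    (∀ i, Q i → v i = vec i1 i2 i3 i4 l N a b c e i) ↔
      (Q i1 → v i1 = a) ∧ (Q i2 → v i2 = b) ∧ (Q i3 → v i3 = c) ∧ (Q i4 → v i4 = e) ∧
      (∀ i, i ≠ i1 → i ≠ i2 → i ≠ i3 → i ≠ i4 → Q i → v i = if i = l then N else 1) := by
  constructor
  · intro h
    refine ⟨fun hq => ?_, fun hq => ?_, fun hq => ?_, fun hq => ?_, fun i hi1 hi2 hi3 hi4 hq => ?_⟩
    · rw [h _ hq]; simp [vec]
    · rw [h _ hq]; simp [vec, h12.symm]
    · rw [h _ hq]; simp [vec, h13.symm, h23.symm]
    · rw [h _ hq]; simp [vec, h14.symm, h24.symm, h34.symm]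
    · rw [h _ hq]; simp [vec, hi1, hi2, hi3, hi4]
  · rintro ⟨ha, hb, hc, he, hr⟩ i hq
    by_cases hi1 : i = i1
    · subst hi1; rw [ha hq]; simp [vec]
    by_cases hi2 : i = i2
    · subst hi2; rw [hb hq]; simp [vec, h12.symm]
    by_cases hi3 : i = i3
    · subst hi3; rw [hc hq]; simp [vec, h13.symm, h23.symm]
    by_cases hi4 : i = i4
    · subst hi4; rw [he hq]; simp [vec, h14.symm, h24.symm, h34.symm]
    rw [hr i hi1 hi2 hi3 hi4 hq]; simp [vec, hi1, hi2, hi3, hi4]

theorem eq_vec (h12 : i1 ≠ i2) (h13 : i1 ≠ i3) (h14 : i1 ≠ i4) (h23 : i2 ≠ i3) (h24 : i2 ≠ i4)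
    (h34 : i3 ≠ i4) (a b c e : ℕ) (u : Fin d →₀ ℕ) :
    (u = vec i1 i2 i3 i4 l N a b c e) ↔
      u i1 = a ∧ u i2 = b ∧ u i3 = c ∧ u i4 = e ∧
      (∀ i, i ≠ i1 → i ≠ i2 → i ≠ i3 → i ≠ i4 → u i = if i = l then N else 1) := by
  have := forall_vec i1 i2 i3 i4 l N h12 h13 h14 h23 h24 h34 a b c e u (fun _ => True)
  simp only [forall_const] at this
  rw [← this]
  exact DFunLike.ext_iff

theorem small_identity (a b c e : ℕ) :
    (if a = 1 ∧ b = 1 ∧ c = 1 ∧ e = 1 then (1 : ZMod 2) else 0) =
      ((if (a = 0 ∧ b = 0) ∧ c + e = 1 + 3 then ((c.choose 1 : ℕ) : ZMod 2) else 0) -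
        (if a = 0 ∧ b = 0 ∧ c = 1 ∧ e = 3 then (1 : ZMod 2) else 0)) +
      ((if (a = 0 ∧ e = 1) ∧ c + b = 0 + 3 then ((c.choose 0 : ℕ) : ZMod 2) else 0) -
        (if a = 0 ∧ b = 3 ∧ c = 0 ∧ e = 1 then (1 : ZMod 2) else 0)) +
      ((if (b = 0 ∧ e = 1) ∧ c + a = 0 + 3 then ((c.choose 0 : ℕ) : ZMod 2) else 0) -
        (if a = 3 ∧ b = 0 ∧ c = 0 ∧ e = 1 then (1 : ZMod 2) else 0)) +
      ((if e = 1 ∧ a + b + c = 3 then (1 : ZMod 2) else 0) -
        (if (c = 0 ∧ e = 1) ∧ b + a = 0 + 3 then ((b.choose 0 : ℕ) : ZMod 2) else 0)) := by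
  by_cases h : a ≤ 4 ∧ b ≤ 4 ∧ c ≤ 4 ∧ e ≤ 4
  · obtain ⟨ha, hb, hc, he⟩ := h
    interval_cases a <;> interval_cases b <;> interval_cases c <;> interval_cases e <;> decide
  · rw [if_neg (by omega), if_neg (by omega), if_neg (by omega), if_neg (by omega), if_neg (by omega),
      if_neg (by omega), if_neg (by omega), if_neg (by omega), if_neg (by omega)]
    simp

theorem key_identity (h12 : i1 ≠ i2) (h13 : i1 ≠ i3) (h14 : i1 ≠ i4) (h23 : i2 ≠ i3) (h24 : i2 ≠ i4)
    (h34 : i3 ≠ i4) (u : Fin d →₀ ℕ) :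
    dl (vec i1 i2 i3 i4 l N 1 1 1 1) (monomial u 1) =
      (actD (Matrix.transvection i4 i3 1) (dl (vec i1 i2 i3 i4 l N 0 0 1 3)) (monomial u 1)
        - dl (vec i1 i2 i3 i4 l N 0 0 1 3) (monomial u 1)) +
      (actD (Matrix.transvection i2 i3 1) (dl (vec i1 i2 i3 i4 l N 0 3 0 1)) (monomial u 1)
        - dl (vec i1 i2 i3 i4 l N 0 3 0 1) (monomial u 1)) +
      (actD (Matrix.transvection i1 i3 1) (dl (vec i1 i2 i3 i4 l N 3 0 0 1)) (monomial u 1)
        - dl (vec i1 i2 i3 i4 l N 3 0 0 1) (monomial u 1)) +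
      (actD (Matrix.transvection i1 i3 1) (actD (Matrix.transvection i1 i2 1)
          (dl (vec i1 i2 i3 i4 l N 3 0 0 1))) (monomial u 1)
        - actD (Matrix.transvection i1 i2 1) (dl (vec i1 i2 i3 i4 l N 3 0 0 1)) (monomial u 1)) := by
  have hD : actD (Matrix.transvection i1 i3 1) (actD (Matrix.transvection i1 i2 1)
          (dl (vec i1 i2 i3 i4 l N 3 0 0 1))) (monomial u 1) =
      if (∀ i, i ≠ i1 → i ≠ i2 → i ≠ i3 → u i = vec i1 i2 i3 i4 l N 3 0 0 1 i) ∧
        u i1 + u i2 + u i3 = 3 then 1 else 0 := by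
    rw [actD_apply, act_transvection i3 i1 h13.symm, map_sum, Finset.sum_eq_single 0]
    · rw [map_smul, dl_transvection i2 i1 h12.symm]
      simp only [Nat.choose_zero_right, Nat.cast_one, one_smul]
      have hv2 : vec i1 i2 i3 i4 l N 3 0 0 1 i2 = 0 := by simp [vec, h12.symm]
      have hv1 : vec i1 i2 i3 i4 l N 3 0 0 1 i1 = 3 := by simp [vec]
      rw [hv2, hv1, Nat.choose_zero_right, Nat.cast_one]
      congr 1
      rw [eq_iff_iff]
      have e1 : upd u i3 i1 0 i1 = u i1 + u i3 := by simp [upd, h13]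
      have e2 : upd u i3 i1 0 i2 = u i2 := by simp [upd, h12.symm, h23]
      have e3 : upd u i3 i1 0 i3 = 0 := by simp [upd]
      rw [e1, e2]
      constructor
      · rintro ⟨h1, h2⟩
        refine ⟨fun i hi1 hi2 hi3 => ?_, by omega⟩
        rw [← h1 i hi2 hi1]
        simp [upd, hi1, hi3]
      · rintro ⟨h1, h2⟩
        refine ⟨fun i hi2 hi1 => ?_, by omega⟩
        by_cases hi3 : i = i3
        · rw [hi3, e3]
          simp [vec, h13.symm, h23.symm]
        · rw [← h1 i hi1 hi2 hi3]
          simp [upd, hi1, hi3]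
    · intro j _ hj
      rw [map_smul, dl_transvection i2 i1 h12.symm, if_neg, smul_zero]
      rintro ⟨h1, _⟩
      have := h1 i3 h23.symm h13.symm
      simp [upd, vec, h13.symm, h23.symm] at this
      exact hj this
    · intro h
      exact absurd (Finset.mem_range.mpr (by omega)) h
  rw [hD, dl_transvection i3 i4 h34, dl_transvection i3 i2 h23.symm, dl_transvection i3 i1 h13.symm,
    dl_transvection i2 i1 h12.symm]
  simp only [dl_apply, coeff_monomial]
  have f1 := eq_vec i1 i2 i3 i4 l N h12 h13 h14 h23 h24 h34 1 1 1 1 u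
  have f2 := eq_vec i1 i2 i3 i4 l N h12 h13 h14 h23 h24 h34 0 0 1 3 u
  have f3 := eq_vec i1 i2 i3 i4 l N h12 h13 h14 h23 h24 h34 0 3 0 1 u
  have f4 := eq_vec i1 i2 i3 i4 l N h12 h13 h14 h23 h24 h34 3 0 0 1 u
  have g1 := forall_vec i1 i2 i3 i4 l N h12 h13 h14 h23 h24 h34 0 0 1 3 u (fun i => i ≠ i3 ∧ i ≠ i4)
  have g2 := forall_vec i1 i2 i3 i4 l N h12 h13 h14 h23 h24 h34 0 3 0 1 u (fun i => i ≠ i3 ∧ i ≠ i2)
  have g3 := forall_vec i1 i2 i3 i4 l N h12 h13 h14 h23 h24 h34 3 0 0 1 u (fun i => i ≠ i3 ∧ i ≠ i1)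
  have g4 := forall_vec i1 i2 i3 i4 l N h12 h13 h14 h23 h24 h34 3 0 0 1 u (fun i => i ≠ i2 ∧ i ≠ i1)
  have g5 := forall_vec i1 i2 i3 i4 l N h12 h13 h14 h23 h24 h34 3 0 0 1 u
    (fun i => i ≠ i1 ∧ i ≠ i2 ∧ i ≠ i3)
  have v1 : ∀ a b c e, vec i1 i2 i3 i4 l N a b c e i1 = a := by intros; simp [vec]
  have v2 : ∀ a b c e, vec i1 i2 i3 i4 l N a b c e i2 = b := by intros; simp [vec, h12.symm]
  have v3 : ∀ a b c e, vec i1 i2 i3 i4 l N a b c e i3 = c := by
    intros; simp [vec, h13.symm, h23.symm]
  have v4 : ∀ a b c e, vec i1 i2 i3 i4 l N a b c e i4 = e := by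
    intros; simp [vec, h14.symm, h24.symm, h34.symm]
  simp only [and_imp] at g1 g2 g3 g4 g5
  obtain ⟨R, hR⟩ : ∃ R : Prop, R = ∀ i, i ≠ i1 → i ≠ i2 → i ≠ i3 → i ≠ i4 → u i = if i = l then N else 1 :=
    ⟨_, rfl⟩
  rw [← hR] at f1 f2 f3 f4
  have c1 : ((∀ i, i ≠ i3 → i ≠ i4 → u i = vec i1 i2 i3 i4 l N 0 0 1 3 i) ∧
      u i3 + u i4 = vec i1 i2 i3 i4 l N 0 0 1 3 i3 + vec i1 i2 i3 i4 l N 0 0 1 3 i4) ↔
      ((u i1 = 0 ∧ u i2 = 0) ∧ u i3 + u i4 = 1 + 3) ∧ R := by
    rw [g1, v3, v4, hR]
    constructor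
    · rintro ⟨⟨h1, h2, h3, h4, h5⟩, h6⟩
      exact ⟨⟨⟨h1 h13 h14, h2 h23 h24⟩, h6⟩, fun i a b c e => h5 i a b c e c e⟩
    · rintro ⟨⟨⟨h1, h2⟩, h3⟩, h4⟩
      exact ⟨⟨fun _ _ => h1, fun _ _ => h2, fun h => absurd rfl h, fun _ h => absurd rfl h,
        fun i a b c e _ _ => h4 i a b c e⟩, h3⟩
  have c2 : ((∀ i, i ≠ i3 → i ≠ i2 → u i = vec i1 i2 i3 i4 l N 0 3 0 1 i) ∧
      u i3 + u i2 = vec i1 i2 i3 i4 l N 0 3 0 1 i3 + vec i1 i2 i3 i4 l N 0 3 0 1 i2) ↔
      ((u i1 = 0 ∧ u i4 = 1) ∧ u i3 + u i2 = 0 + 3) ∧ R := by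
    rw [g2, v3, v2, hR]
    constructor
    · rintro ⟨⟨h1, h2, h3, h4, h5⟩, h6⟩
      exact ⟨⟨⟨h1 h13 h12, h4 h34.symm h24.symm⟩, h6⟩, fun i a b c e => h5 i a b c e c b⟩
    · rintro ⟨⟨⟨h1, h2⟩, h3⟩, h4⟩
      exact ⟨⟨fun _ _ => h1, fun _ h => absurd rfl h, fun h => absurd rfl h, fun _ _ => h2,
        fun i a b c e _ _ => h4 i a b c e⟩, h3⟩
  have c3 : ((∀ i, i ≠ i3 → i ≠ i1 → u i = vec i1 i2 i3 i4 l N 3 0 0 1 i) ∧
      u i3 + u i1 = vec i1 i2 i3 i4 l N 3 0 0 1 i3 + vec i1 i2 i3 i4 l N 3 0 0 1 i1) ↔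
      ((u i2 = 0 ∧ u i4 = 1) ∧ u i3 + u i1 = 0 + 3) ∧ R := by
    rw [g3, v3, v1, hR]
    constructor
    · rintro ⟨⟨h1, h2, h3, h4, h5⟩, h6⟩
      exact ⟨⟨⟨h2 h23 h12.symm, h4 h34.symm h14.symm⟩, h6⟩, fun i a b c e => h5 i a b c e c a⟩
    · rintro ⟨⟨⟨h1, h2⟩, h3⟩, h4⟩
      exact ⟨⟨fun _ h => absurd rfl h, fun _ _ => h1, fun h => absurd rfl h, fun _ _ => h2,
        fun i a b c e _ _ => h4 i a b c e⟩, h3⟩
  have c4 : ((∀ i, i ≠ i2 → i ≠ i1 → u i = vec i1 i2 i3 i4 l N 3 0 0 1 i) ∧
      u i2 + u i1 = vec i1 i2 i3 i4 l N 3 0 0 1 i2 + vec i1 i2 i3 i4 l N 3 0 0 1 i1) ↔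
      ((u i3 = 0 ∧ u i4 = 1) ∧ u i2 + u i1 = 0 + 3) ∧ R := by
    rw [g4, v2, v1, hR]
    constructor
    · rintro ⟨⟨h1, h2, h3, h4, h5⟩, h6⟩
      exact ⟨⟨⟨h3 h23.symm h13.symm, h4 h24.symm h14.symm⟩, h6⟩, fun i a b c e => h5 i a b c e b a⟩
    · rintro ⟨⟨⟨h1, h2⟩, h3⟩, h4⟩
      exact ⟨⟨fun _ h => absurd rfl h, fun h => absurd rfl h, fun _ _ => h1, fun _ _ => h2,
        fun i a b c e _ _ => h4 i a b c e⟩, h3⟩
  have c5 : ((∀ i, i ≠ i1 → i ≠ i2 → i ≠ i3 → u i = vec i1 i2 i3 i4 l N 3 0 0 1 i) ∧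
      u i1 + u i2 + u i3 = 3) ↔ (u i4 = 1 ∧ u i1 + u i2 + u i3 = 3) ∧ R := by
    rw [g5, hR]
    constructor
    · rintro ⟨⟨h1, h2, h3, h4, h5⟩, h6⟩
      exact ⟨⟨h4 h14.symm h24.symm h34.symm, h6⟩, fun i a b c e => h5 i a b c e a b c⟩
    · rintro ⟨⟨h1, h3⟩, h4⟩
      exact ⟨⟨fun h => absurd rfl h, fun _ h => absurd rfl h, fun _ _ h => absurd rfl h,
        fun _ _ _ => h1, fun i a b c e _ _ _ => h4 i a b c e⟩, h3⟩
  have hsm := small_identity (u i1) (u i2) (u i3) (u i4)
  classical
  by_cases hr : R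
  · simp only [hr, and_true] at f1 f2 f3 f4 c1 c2 c3 c4 c5
    rw [if_congr f1 rfl rfl, if_congr f2 rfl rfl, if_congr f3 rfl rfl, if_congr f4 rfl rfl,
      if_congr c1 rfl rfl, if_congr c2 rfl rfl, if_congr c3 rfl rfl, if_congr c4 rfl rfl,
      if_congr c5 rfl rfl, v3, v3, v3, v2]
    exact hsm
  · simp only [hr, and_false] at f1 f2 f3 f4 c1 c2 c3 c4 c5
    rw [if_congr f1 rfl rfl, if_congr f2 rfl rfl, if_congr f3 rfl rfl, if_congr f4 rfl rfl,
      if_congr c1 rfl rfl, if_congr c2 rfl rfl, if_congr c3 rfl rfl, if_congr c4 rfl rfl,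
      if_congr c5 rfl rfl]
    simp

end vanishing

/-! ### hit polynomials and words -/

/-- span of the hit polynomials -/
noncomputable def Hit (d : ℕ) : Submodule (ZMod 2) (P d) :=
  Submodule.span (ZMod 2) {g | ∃ (k : ℕ) (f : P d), 0 < k ∧ g = SqL d k f}

theorem Sq_mem_Hit {d k : ℕ} (hk : 0 < k) (f : P d) : SqL d k f ∈ Hit d :=
  Submodule.subset_span ⟨k, f, hk, rfl⟩

theorem PH_apply_Hit {d n : ℕ} {φ : Module.Dual (ZMod 2) (P d)} (hφ : φ ∈ PHD d n) {f : P d}
    (hf : f ∈ Hit d) : φ f = 0 := by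
  have : Hit d ≤ LinearMap.ker φ := by
    rw [Hit, Submodule.span_le]
    rintro g ⟨k, f, hk, rfl⟩
    exact hφ.2 k hk f
  exact this hf

theorem coeff_sq {d : ℕ} (p : Polynomial (P d)) (k : ℕ) :
    (p ^ 2).coeff k = if 2 ∣ k then (p.coeff (k / 2)) ^ 2 else 0 := by
  rw [← Polynomial.map_frobenius_expand, Polynomial.coeff_map, Polynomial.coeff_expand (by norm_num)]
  split_ifs
  · rfl
  · exact map_zero _

theorem totalSq_X {d : ℕ} (i : Fin d) : totalSqA d (X i) =
    Polynomial.C (X i) + Polynomial.C (X i ^ 2) * Polynomial.X := by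
  rw [totalSqA, aeval_X]

theorem Sq_X_mul_sq {d : ℕ} (i : Fin d) (k : ℕ) (hk : 0 < k) (f : P d) :
    SqL d (2 * k) (X i * f ^ 2) = X i * (SqL d k f) ^ 2 := by
  rw [Sq_apply, map_mul, map_pow, totalSq_X, add_mul, Polynomial.coeff_add, Polynomial.coeff_C_mul,
    mul_assoc, Polynomial.coeff_C_mul]
  obtain ⟨j, rfl⟩ : ∃ j, k = j + 1 := ⟨k - 1, by omega⟩
  have h1 : 2 * (j + 1) = (2 * j + 1) + 1 := by ring
  rw [h1, Polynomial.coeff_X_mul, ← h1, coeff_sq, coeff_sq, if_pos (by omega), if_neg (by omega),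
    mul_zero, add_zero, Nat.mul_div_cancel_left _ (by norm_num)]
  rfl

theorem X_mul_sq_mem_Hit {d : ℕ} (i : Fin d) {f : P d} (hf : f ∈ Hit d) : X i * f ^ 2 ∈ Hit d := by
  induction hf using Submodule.span_induction with
  | mem x hx =>
    obtain ⟨k, f, hk, rfl⟩ := hx
    rw [← Sq_X_mul_sq i k hk]
    exact Sq_mem_Hit (by omega) _
  | zero => simp
  | add x y _ _ hx hy =>
    rw [CharTwo.add_sq, mul_add]
    exact (Hit d).add_mem hx hy
  | smul a x _ hx =>
    rw [smul_pow, zmod2_sq, mul_smul_comm]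
    exact (Hit d).smul_mem a hx

theorem Sq_zero {d : ℕ} (f : P d) : SqL d 0 f = f := by
  have h : (Polynomial.evalRingHom (0 : P d)).comp (totalSqA d).toRingHom = RingHom.id _ := by
    apply MvPolynomial.ringHom_ext
    · intro r
      have : totalSqA d (C r) = Polynomial.C (C r) := (totalSqA d).commutes r
      simp [this]
    · intro i
      simp [totalSqA]
  have h2 := congrArg (fun g => g f) h
  rw [Sq_apply, Polynomial.coeff_zero_eq_eval_zero]
  exact h2

theorem Sq_one_mul {d : ℕ} (f g : P d) : SqL d 1 (f * g) = SqL d 1 f * g + f * SqL d 1 g := by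
  have h0 := Sq_zero f
  have h0' := Sq_zero g
  rw [Sq_apply] at h0 h0'
  rw [Sq_apply, Sq_apply, Sq_apply, map_mul, Polynomial.coeff_mul,
    Finset.Nat.antidiagonal_succ]
  simp [h0, h0', add_comm]

theorem Sq_one_X {d : ℕ} (i : Fin d) : SqL d 1 (X i) = X i ^ 2 := by
  rw [Sq_apply, totalSq_X, Polynomial.coeff_add, Polynomial.coeff_C_mul, Polynomial.coeff_X_one,
    Polynomial.coeff_C, if_neg one_ne_zero, zero_add, mul_one]

theorem Sq_one_sq {d : ℕ} (f : P d) : SqL d 1 (f ^ 2) = 0 := by
  rw [pow_two, Sq_one_mul, mul_comm, CharTwo.add_self_eq_zero]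

/-- word polynomials -/
noncomputable def WL {d : ℕ} : List (Fin d) → P d
  | [] => 1
  | i :: l => X i * (WL l) ^ 2

theorem WL_swap {d : ℕ} (i j : Fin d) (l : List (Fin d)) :
    WL (i :: j :: l) - WL (j :: i :: l) ∈ Hit d := by
  have h : SqL d 1 (X i * X j * ((WL l) ^ 2) ^ 2) = WL (i :: j :: l) - WL (j :: i :: l) := by
    rw [Sq_one_mul, Sq_one_sq, Sq_one_mul, Sq_one_X, Sq_one_X, CharTwo.sub_eq_add]
    simp only [WL]
    ring
  rw [← h]
  exact Sq_mem_Hit one_pos _

theorem WL_cons {d : ℕ} (i : Fin d) {l l' : List (Fin d)} (h : WL l - WL l' ∈ Hit d) :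
    WL (i :: l) - WL (i :: l') ∈ Hit d := by
  have h1 := X_mul_sq_mem_Hit i h
  have h2 : X i * (WL l - WL l') ^ 2 = WL (i :: l) - WL (i :: l') := by
    rw [CharTwo.sub_eq_add, CharTwo.sub_eq_add, CharTwo.add_sq, mul_add]
    rfl
  rwa [h2] at h1

theorem WL_perm {d : ℕ} {l l' : List (Fin d)} (h : l.Perm l') : WL l - WL l' ∈ Hit d := by
  induction h with
  | nil => simp
  | cons i _ ih => exact WL_cons i ih
  | swap i j l => exact WL_swap _ _ _
  | trans _ _ ih1 ih2 =>
    have := (Hit d).add_mem ih1 ih2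
    simpa using this

theorem WL_move {d : ℕ} (i j : Fin d) (l : List (Fin d)) :
    WL (i :: i :: j :: l) - WL (j :: j :: i :: l) ∈ Hit d := by
  have h : SqL d 1 (X i ^ 3 * X j ^ 3 * (((WL l) ^ 2) ^ 2) ^ 2) =
      WL (i :: i :: j :: l) - WL (j :: j :: i :: l) := by
    have h3 : ∀ i : Fin d, SqL d 1 (X i ^ 3) = X i ^ 4 := by
      intro i
      have : (X i : P d) ^ 3 = X i * X i ^ 2 := by ring
      rw [this, Sq_one_mul, Sq_one_sq, Sq_one_X]
      ring
    rw [Sq_one_mul, Sq_one_sq, Sq_one_mul, h3, h3, CharTwo.sub_eq_add]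
    simp only [WL]
    ring
  rw [← h]
  exact Sq_mem_Hit one_pos _

/-- class of a word modulo hit polynomials, as a function of the multiset of letters -/
noncomputable def WM {d : ℕ} (M : Multiset (Fin d)) : P d ⧸ Hit d :=
  Quotient.liftOn M (fun l => (Hit d).mkQ (WL l)) (by
    intro l l' h
    have := WL_perm h
    rw [← sub_eq_zero, ← map_sub]
    exact (Submodule.Quotient.mk_eq_zero _).mpr this)

theorem WM_coe {d : ℕ} (l : List (Fin d)) : WM (l : Multiset (Fin d)) = (Hit d).mkQ (WL l) := rfl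

theorem WM_move {d : ℕ} (i j : Fin d) (M : Multiset (Fin d)) :
    WM (i ::ₘ i ::ₘ j ::ₘ M) = WM (i ::ₘ j ::ₘ j ::ₘ M) := by
  induction M using Quotient.inductionOn with
  | h l =>
    have h1 : WM (i ::ₘ j ::ₘ j ::ₘ (l : Multiset (Fin d))) = WM (j ::ₘ j ::ₘ i ::ₘ (l : Multiset (Fin d))) := by
      congr 1
      rw [Multiset.cons_swap i j, Multiset.cons_swap i j]
    have h2 : WM (i ::ₘ i ::ₘ j ::ₘ (l : Multiset (Fin d))) = WM (j ::ₘ j ::ₘ i ::ₘ (l : Multiset (Fin d))) := by
      simp only [Multiset.cons_coe, WM_coe]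
      rw [← sub_eq_zero, ← map_sub]
      exact (Submodule.Quotient.mk_eq_zero _).mpr (WL_move i j l)
    exact h2.trans h1.symm

theorem WM_normal {d : ℕ} (i : Fin d) (k : ℕ) : ∀ M : Multiset (Fin d), i ∈ M →
    (M.filter (· ≠ i)).card ≤ k →
    WM M = WM (M.toFinset.val + Multiset.replicate (M.card - M.toFinset.card) i) := by
  induction k with
  | zero =>
    intro M hi hk
    congr 1
    have h1 : ∀ j ∈ M, j = i := by
      intro j hj
      by_contra hne
      have : j ∈ M.filter (· ≠ i) := Multiset.mem_filter.mpr ⟨hj, hne⟩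
      have h2 := Multiset.card_pos_iff_exists_mem.mpr ⟨j, this⟩
      omega
    have h2 : M.dedup = {i} := by
      apply le_antisymm
      · rw [Multiset.le_iff_subset (Multiset.nodup_dedup M)]
        intro j hj
        rw [Multiset.mem_singleton]
        exact h1 j (Multiset.mem_dedup.mp hj)
      · rw [Multiset.singleton_le]
        exact Multiset.mem_dedup.mpr hi
    have h3 : M.toFinset.card = 1 := by
      rw [Multiset.card_toFinset, h2, Multiset.card_singleton]
    have h4 : 0 < M.card := Multiset.card_pos_iff_exists_mem.mpr ⟨i, hi⟩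
    rw [h3, Multiset.toFinset_val, h2]
    have h5 : M = Multiset.replicate M.card i := Multiset.eq_replicate.mpr ⟨rfl, h1⟩
    conv_lhs => rw [h5]
    rw [Multiset.singleton_add, ← Multiset.replicate_succ]
    congr 1
    omega
  | succ k ih =>
    intro M hi hk
    by_cases hcase : ∃ j, j ≠ i ∧ 2 ≤ M.count j
    · obtain ⟨j, hji, hj⟩ := hcase
      obtain ⟨R, hR⟩ : ∃ R, M = j ::ₘ j ::ₘ i ::ₘ R := by
        have h1 : j ∈ M := Multiset.count_pos.mp (by omega)
        obtain ⟨R1, rfl⟩ := Multiset.exists_cons_of_mem h1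
        rw [Multiset.count_cons_self] at hj
        have h2 : j ∈ R1 := Multiset.count_pos.mp (by omega)
        obtain ⟨R2, rfl⟩ := Multiset.exists_cons_of_mem h2
        have h3 : i ∈ R2 := by
          rw [Multiset.mem_cons, Multiset.mem_cons] at hi
          rcases hi with h | h | h
          · exact absurd h.symm hji
          · exact absurd h.symm hji
          · exact h
        obtain ⟨R3, rfl⟩ := Multiset.exists_cons_of_mem h3
        exact ⟨R3, rfl⟩
      subst hR
      have h4 : (j ::ₘ i ::ₘ i ::ₘ R).toFinset = (j ::ₘ j ::ₘ i ::ₘ R).toFinset := by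
        ext x
        simp
      have h5 : (j ::ₘ i ::ₘ i ::ₘ R).card = (j ::ₘ j ::ₘ i ::ₘ R).card := by simp
      rw [WM_move, ih (j ::ₘ i ::ₘ i ::ₘ R) (by simp), h4, h5]
      have e1 : (j ::ₘ j ::ₘ i ::ₘ R).filter (· ≠ i) = j ::ₘ j ::ₘ R.filter (· ≠ i) := by
        rw [Multiset.filter_cons_of_pos (p := fun x => x ≠ i) _ hji,
          Multiset.filter_cons_of_pos (p := fun x => x ≠ i) _ hji,
          Multiset.filter_cons_of_neg (p := fun x => x ≠ i) _ (by simp)]
      have e2 : (j ::ₘ i ::ₘ i ::ₘ R).filter (· ≠ i) = j ::ₘ R.filter (· ≠ i) := by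
        rw [Multiset.filter_cons_of_pos (p := fun x => x ≠ i) _ hji,
          Multiset.filter_cons_of_neg (p := fun x => x ≠ i) _ (by simp),
          Multiset.filter_cons_of_neg (p := fun x => x ≠ i) _ (by simp)]
      rw [e1, Multiset.card_cons, Multiset.card_cons] at hk
      rw [e2, Multiset.card_cons]
      omega
    · push Not at hcase
      congr 1
      have h1 : M.dedup ≤ M := Multiset.dedup_le M
      have h2 : M = M.dedup + (M - M.dedup) := (add_tsub_cancel_of_le h1).symm
      have h3 : M - M.dedup = Multiset.replicate (M.card - M.toFinset.card) i := by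
        rw [Multiset.eq_replicate]
        refine ⟨by rw [Multiset.card_sub h1, Multiset.card_toFinset], fun b hb => ?_⟩
        by_contra hne
        have h4 := hcase b hne
        have h5 : 0 < (M - M.dedup).count b := Multiset.count_pos.mpr hb
        rw [Multiset.count_sub] at h5
        have h6 : b ∈ M := Multiset.mem_of_le (Multiset.sub_le_self _ _) hb
        have h7 : 0 < M.dedup.count b := Multiset.count_pos.mpr (Multiset.mem_dedup.mpr h6)
        omega
      conv_lhs => rw [h2, h3]
      rw [Multiset.toFinset_val]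

theorem WM_eq {d : ℕ} (M M' : Multiset (Fin d)) (h : M.card = M'.card)
    (h' : M.toFinset = M'.toFinset) : WM M = WM M' := by
  by_cases h0 : M = 0
  · have : M' = 0 := by
      rw [← Multiset.card_eq_zero, ← h, h0, Multiset.card_zero]
    rw [h0, this]
  · obtain ⟨i, hi⟩ := Multiset.exists_mem_of_ne_zero h0
    have hi' : i ∈ M' := by
      rw [← Multiset.mem_toFinset, ← h', Multiset.mem_toFinset]
      exact hi
    rw [WM_normal i _ M hi le_rfl, WM_normal i _ M' hi' le_rfl, h, h']

/-- the word polynomial of a function b from Fin m to Fin d -/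
noncomputable def W {d m : ℕ} (b : Fin m → Fin d) : P d := ∏ k : Fin m, X (b k) ^ (2 ^ (k : ℕ))

theorem W_eq_WL {d : ℕ} : ∀ {m : ℕ} (b : Fin m → Fin d), W b = WL (List.ofFn b) := by
  intro m
  induction m with
  | zero =>
    intro b
    simp [W, WL]
  | succ m ih =>
    intro b
    rw [List.ofFn_succ, WL, ← ih, W, Fin.prod_univ_succ, W, ← Finset.prod_pow]
    congr 1
    · simp
    · refine Finset.prod_congr rfl fun k _ => ?_
      rw [← pow_mul, Fin.val_succ, pow_succ]

theorem W_congr {d m n : ℕ} {φ : Module.Dual (ZMod 2) (P d)} (hφ : φ ∈ PHD d n) (b c : Fin m → Fin d)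
    (h : Finset.univ.image b = Finset.univ.image c) : φ (W b) = φ (W c) := by
  have h1 : WM ((List.ofFn b : List (Fin d)) : Multiset (Fin d)) =
      WM ((List.ofFn c : List (Fin d)) : Multiset (Fin d)) := by
    apply WM_eq
    · simp
    · ext x
      have := congrArg (fun s => x ∈ s) h
      simpa [List.mem_ofFn] using this
  rw [WM_coe, WM_coe, ← W_eq_WL, ← W_eq_WL, ← sub_eq_zero, ← map_sub] at h1
  have h2 : W b - W c ∈ Hit d := (Submodule.Quotient.mk_eq_zero _).mp h1
  have h3 := PH_apply_Hit hφ h2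
  rw [map_sub, sub_eq_zero] at h3
  exact h3


theorem zmod2_pow (a : ZMod 2) (n : ℕ) (hn : 0 < n) : a ^ n = a := by
  obtain ⟨k, rfl⟩ : ∃ k, n = k + 1 := ⟨n - 1, by omega⟩
  clear hn
  induction k with
  | zero => simp
  | succ k ih => rw [pow_succ, ih, ← pow_two, zmod2_sq]

theorem act_W {d m : ℕ} (w : Matrix (Fin d) (Fin d) (ZMod 2)) (b : Fin m → Fin d) :
    actA w (W b) = ∑ c : Fin m → Fin d, (∏ k, w (c k) (b k)) • W c := by
  have h1 : ∀ k : Fin m, actA w (X (b k) ^ (2 ^ (k : ℕ)) : P d) =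
      ∑ i, w i (b k) • (X i : P d) ^ (2 ^ (k : ℕ)) := by
    intro k
    rw [map_pow, actA, aeval_X, sum_pow_char_pow]
    refine Finset.sum_congr rfl fun i _ => ?_
    rw [mul_pow, ← map_pow, zmod2_pow _ _ (by positivity), smul_eq_C_mul]
  rw [W, map_prod, Finset.prod_congr rfl fun k _ => h1 k, Finset.prod_univ_sum,
    Fintype.piFinset_univ]
  refine Finset.sum_congr rfl fun c _ => ?_
  rw [Finset.prod_smul, W]

theorem exists_bS {d m : ℕ} (hm : d ≤ m) (S : Finset (Fin d)) (hS : S.Nonempty) :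
    ∃ b : Fin m → Fin d, Finset.univ.image b = S := by
  classical
  have hcard : Fintype.card S ≤ Fintype.card (Fin m) := by
    rw [Fintype.card_coe, Fintype.card_fin]
    exact (Finset.card_le_univ S).trans (by simpa using hm)
  obtain ⟨e⟩ := Function.Embedding.nonempty_of_card_le hcard
  have : Nonempty S := hS.to_subtype
  have hsurj := Function.invFun_surjective e.injective
  refine ⟨fun k => ((Function.invFun (⇑e) k : S) : Fin d), ?_⟩
  ext x
  simp only [Finset.mem_image, Finset.mem_univ, true_and]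
  constructor
  · rintro ⟨k, rfl⟩
    exact (Function.invFun (⇑e) k).2
  · intro hx
    obtain ⟨k, hk⟩ := hsurj ⟨x, hx⟩
    exact ⟨k, by rw [hk]⟩

/-- a chosen word with image S -/
noncomputable def bS {d m : ℕ} (hm : d ≤ m) (S : Finset (Fin d)) (hS : S.Nonempty) :
    Fin m → Fin d := Classical.choose (exists_bS hm S hS)

theorem bS_spec {d m : ℕ} (hm : d ≤ m) (S : Finset (Fin d)) (hS : S.Nonempty) :
    Finset.univ.image (bS hm S hS) = S := Classical.choose_spec (exists_bS hm S hS)

/-- invariant polynomial -/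
noncomputable def F {d m : ℕ} (hm : d ≤ m) : P d :=
  ∑ S : Finset (Fin d), if hS : S.Nonempty then W (bS hm S hS) else 0

theorem prod_image_zmod2 {d m : ℕ} (b : Fin m → Fin d) (r : Fin d → ZMod 2) :
    ∏ k, r (b k) = ∏ j ∈ Finset.univ.image b, r j := by
  by_cases h : ∃ k, r (b k) = 0
  · obtain ⟨k, hk⟩ := h
    rw [Finset.prod_eq_zero (Finset.mem_univ k) hk, Finset.prod_eq_zero (i := b k)
      (Finset.mem_image_of_mem b (Finset.mem_univ k)) hk]
  · push Not at h
    have h1 : ∀ k, r (b k) = 1 := by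
      intro k
      have := h k
      revert this
      generalize r (b k) = a
      revert a
      decide
    rw [Finset.prod_eq_one fun k _ => h1 k, Finset.prod_eq_one]
    intro j hj
    obtain ⟨k, _, rfl⟩ := Finset.mem_image.mp hj
    exact h1 k

/-- the coefficient of the class of T in the translate of the invariant polynomial -/
noncomputable def kap {d m : ℕ} (hm : d ≤ m) (w : Matrix (Fin d) (Fin d) (ZMod 2))
    (T : Finset (Fin d)) : ZMod 2 :=
  ∑ S : Finset (Fin d), if hS : S.Nonempty then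
    ∑ c : Fin m → Fin d with Finset.univ.image c = T, ∏ k, w (c k) (bS hm S hS k) else 0

theorem sum_kap {d m : ℕ} (hm : d ≤ m) (w w' : Matrix (Fin d) (Fin d) (ZMod 2)) (hw : w * w' = 1)
    (U : Finset (Fin d)) (hU : U.Nonempty) : ∑ T ∈ U.powerset, kap hm w T = 1 := by
  obtain ⟨r, hr⟩ : ∃ r : Fin d → ZMod 2, r = fun j => ∑ i ∈ U, w i j := ⟨_, rfl⟩
  have h1 : ∀ S : Finset (Fin d), ∀ hS : S.Nonempty, ∑ T ∈ U.powerset,
      ∑ c : Fin m → Fin d with Finset.univ.image c = T, ∏ k, w (c k) (bS hm S hS k) =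
      ∏ j ∈ S, r j := by
    intro S hS
    rw [← Finset.sum_biUnion]
    · have h2 : (U.powerset.biUnion fun T => Finset.univ.filter
          (fun c : Fin m → Fin d => Finset.univ.image c = T)) = Fintype.piFinset (fun _ => U) := by
        ext c
        simp only [Finset.mem_biUnion, Finset.mem_powerset, Finset.mem_filter, Finset.mem_univ,
          true_and, Fintype.mem_piFinset]
        constructor
        · rintro ⟨T, hT, rfl⟩ k
          exact hT (Finset.mem_image_of_mem c (Finset.mem_univ k))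
        · intro h
          refine ⟨_, ?_, rfl⟩
          intro x hx
          obtain ⟨k, _, rfl⟩ := Finset.mem_image.mp hx
          exact h k
      rw [h2, ← Finset.prod_univ_sum (fun _ => U) (fun k i => w i (bS hm S hS k))]
      have h3 := prod_image_zmod2 (bS hm S hS) r
      rw [bS_spec] at h3
      rw [← h3, hr]
    · intro T _ T' _ hTT'
      rw [Function.onFun, Finset.disjoint_left]
      intro c hc hc'
      simp only [Finset.mem_filter, Finset.mem_univ, true_and] at hc hc'
      exact hTT' (hc.symm.trans hc')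
  have h4 : ∑ T ∈ U.powerset, kap hm w T = ∑ S : Finset (Fin d), if S.Nonempty then ∏ j ∈ S, r j else 0 := by
    simp only [kap]
    rw [Finset.sum_comm]
    refine Finset.sum_congr rfl fun S _ => ?_
    split_ifs with hS
    · exact h1 S hS
    · simp
  have h5 : ∏ j, (1 + r j) = 0 := by
    by_contra hne
    have h6 : ∀ j, r j = 0 := by
      intro j
      have h7 : 1 + r j ≠ 0 := fun h => hne (Finset.prod_eq_zero (Finset.mem_univ j) h)
      revert h7
      generalize r j = a
      revert a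
      decide
    have h8 : Matrix.vecMul (fun i => if i ∈ U then (1 : ZMod 2) else 0) w = 0 := by
      ext j
      have := h6 j
      rw [hr] at this
      simp only [Matrix.vecMul, dotProduct, ite_mul, one_mul, zero_mul, Pi.zero_apply]
      rw [Finset.sum_ite_mem, Finset.univ_inter]
      exact this
    have h9 := Matrix.vecMul_vecMul (fun i => if i ∈ U then (1 : ZMod 2) else 0) w w'
    rw [h8, hw, Matrix.zero_vecMul, Matrix.vecMul_one] at h9
    obtain ⟨i, hi⟩ := hU
    have h10 := congrFun h9 i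
    rw [if_pos hi, Pi.zero_apply] at h10
    exact absurd h10 (by decide)
  have h11 := Finset.prod_one_add (f := r) Finset.univ
  rw [Finset.powerset_univ, h5] at h11
  rw [h4]
  have h12 : (∑ S : Finset (Fin d), if S.Nonempty then ∏ j ∈ S, r j else 0) + 1 = 0 := by
    have h13 : ∀ S : Finset (Fin d), ∏ j ∈ S, r j =
        (if S.Nonempty then ∏ j ∈ S, r j else 0) + (if S = ∅ then 1 else 0) := by
      intro S
      by_cases hS : S = ∅
      · simp [hS]
      · rw [if_pos (Finset.nonempty_iff_ne_empty.mpr hS), if_neg hS, add_zero]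
    rw [Finset.sum_congr rfl fun S _ => h13 S, Finset.sum_add_distrib] at h11
    simp only [Finset.sum_ite_eq', Finset.mem_univ, if_true] at h11
    exact h11.symm
  revert h12
  generalize (∑ S : Finset (Fin d), if S.Nonempty then ∏ j ∈ S, r j else 0) = a
  revert a
  decide


theorem kap_empty {d m : ℕ} (hm : d ≤ m) (hm0 : 0 < m) (w : Matrix (Fin d) (Fin d) (ZMod 2)) :
    kap hm w ∅ = 0 := by
  rw [kap]
  refine Finset.sum_eq_zero fun S _ => ?_
  split_ifs
  · apply Finset.sum_eq_zero
    intro c hc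
    exfalso
    simp only [Finset.mem_filter, Finset.mem_univ, true_and, Finset.image_eq_empty] at hc
    exact Finset.ne_empty_of_mem (Finset.mem_univ (⟨0, hm0⟩ : Fin m)) hc
  · rfl

theorem kap_eq_one {d m : ℕ} (hm : d ≤ m) (hm0 : 0 < m) (w w' : Matrix (Fin d) (Fin d) (ZMod 2))
    (hw : w * w' = 1) : ∀ U : Finset (Fin d), U.Nonempty → kap hm w U = 1 := by
  intro U
  induction U using Finset.strongInduction with
  | H U ih =>
    intro hU
    have h1 := sum_kap hm w w' hw U hU
    have h3 : ∑ T ∈ U.powerset, kap hm w T = kap hm w U + ∑ T ∈ U.ssubsets, kap hm w T := by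
      rw [← Finset.insert_erase (Finset.mem_powerset_self U), Finset.sum_insert (Finset.notMem_erase _ _)]
      rfl
    have h4 : ∑ T ∈ U.ssubsets, kap hm w T = ∑ T ∈ U.ssubsets, if T.Nonempty then 1 else 0 := by
      refine Finset.sum_congr rfl fun T hT => ?_
      split_ifs with hT'
      · exact ih T (Finset.mem_ssubsets.mp hT) hT'
      · rw [Finset.not_nonempty_iff_eq_empty.mp hT', kap_empty hm hm0]
    have h5 : ∑ T ∈ U.powerset, (if T.Nonempty then (1 : ZMod 2) else 0) = 1 := by
      have h7 : ∏ j ∈ U, (1 + (1 : ZMod 2)) = 0 := by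
        obtain ⟨j, hj⟩ := hU
        exact Finset.prod_eq_zero hj (by decide)
      rw [Finset.prod_one_add] at h7
      have h13 : ∀ S : Finset (Fin d), ∏ j ∈ S, (1 : ZMod 2) =
          (if S.Nonempty then 1 else 0) + (if S = ∅ then 1 else 0) := by
        intro S
        by_cases hS : S = ∅
        · simp [hS]
        · rw [if_pos (Finset.nonempty_iff_ne_empty.mpr hS), if_neg hS, add_zero, Finset.prod_const_one]
      rw [Finset.sum_congr rfl fun S _ => h13 S, Finset.sum_add_distrib] at h7
      simp only [Finset.sum_ite_eq', Finset.empty_mem_powerset, if_true] at h7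
      revert h7
      generalize (∑ T ∈ U.powerset, (if T.Nonempty then (1 : ZMod 2) else 0)) = a
      revert a
      decide
    have h6 : ∑ T ∈ U.powerset, (if T.Nonempty then (1 : ZMod 2) else 0) =
        1 + ∑ T ∈ U.ssubsets, if T.Nonempty then 1 else 0 := by
      rw [← Finset.insert_erase (Finset.mem_powerset_self U), Finset.sum_insert (Finset.notMem_erase _ _),
        if_pos hU]
      rfl
    rw [h3, h4] at h1
    rw [h6] at h5
    exact add_right_cancel (h1.trans h5.symm)

theorem F_invariant {d m n : ℕ} (hm : d ≤ m) (hm0 : 0 < m) {φ : Module.Dual (ZMod 2) (P d)}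
    (hφ : φ ∈ PHD d n) (w w' : Matrix (Fin d) (Fin d) (ZMod 2)) (hw : w * w' = 1) :
    φ (actA w (F hm)) = φ (F hm) := by
  obtain ⟨g, hg⟩ : ∃ g : Finset (Fin d) → ZMod 2, g = fun S =>
    if hS : S.Nonempty then φ (W (bS hm S hS)) else 0 := ⟨_, rfl⟩
  have hgW : ∀ c : Fin m → Fin d, φ (W c) = g (Finset.univ.image c) := by
    intro c
    have hne : (Finset.univ.image c).Nonempty :=
      ⟨c ⟨0, hm0⟩, Finset.mem_image_of_mem c (Finset.mem_univ _)⟩
    rw [hg]
    simp only [dif_pos hne]
    exact W_congr hφ _ _ (bS_spec hm _ hne).symm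
  have h1 : φ (F hm) = ∑ S, g S := by
    rw [F, map_sum, hg]
    refine Finset.sum_congr rfl fun S _ => ?_
    by_cases hS : S.Nonempty
    · simp only [dif_pos hS]
    · simp only [dif_neg hS]
      exact map_zero _
  have h2 : φ (actA w (F hm)) = ∑ T, kap hm w T * g T := by
    rw [F, map_sum, map_sum]
    simp only [kap]
    simp only [Finset.sum_mul]
    rw [Finset.sum_comm]
    refine Finset.sum_congr rfl fun S _ => ?_
    split_ifs with hS
    · rw [act_W, map_sum, ← Finset.sum_fiberwise Finset.univ (fun c : Fin m → Fin d => Finset.univ.image c)]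
      refine Finset.sum_congr rfl fun T _ => ?_
      rw [Finset.sum_mul]
      refine Finset.sum_congr rfl fun c hc => ?_
      rw [map_smul, hgW c, (Finset.mem_filter.mp hc).2, smul_eq_mul]
    · simp
  rw [h1, h2]
  refine Finset.sum_congr rfl fun T _ => ?_
  by_cases hT : T.Nonempty
  · rw [kap_eq_one hm hm0 w w' hw T hT, one_mul]
  · rw [hg]
    simp [hT]


theorem W_eq_monomial {d m : ℕ} (b : Fin m → Fin d) :
    (W b : P d) = monomial (∑ k, Finsupp.single (b k) (2 ^ (k : ℕ))) 1 := by
  rw [monomial_sum_one, W]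
  refine Finset.prod_congr rfl fun k _ => ?_
  rw [X_pow_eq_monomial]

theorem sum_two_pow (m : ℕ) : ∑ k : Fin m, 2 ^ (k : ℕ) = 2 ^ m - 1 := by
  rw [Fin.sum_univ_eq_sum_range (fun k => 2 ^ k) m, Nat.geomSum_eq le_rfl]
  simp

theorem dl_F {d m : ℕ} (hm : d ≤ m) (l : Fin d) :
    dl (Finsupp.single l (2 ^ m - 1)) (F hm) = 1 := by
  have hl : ({l} : Finset (Fin d)).Nonempty := Finset.singleton_nonempty l
  rw [F, map_sum, Finset.sum_eq_single ({l} : Finset (Fin d))]
  · rw [dif_pos hl, W_eq_monomial, dl_apply, coeff_monomial, if_pos]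
    have h1 : ∀ k, bS hm _ hl k = l := by
      intro k
      have h2 := bS_spec hm _ hl
      have h3 : bS hm _ hl k ∈ Finset.univ.image (bS hm _ hl) :=
        Finset.mem_image_of_mem _ (Finset.mem_univ k)
      rw [h2] at h3
      exact Finset.mem_singleton.mp h3
    simp only [h1]
    rw [← sum_two_pow m, Finsupp.single_finsetSum]
  · intro S _ hS
    split_ifs with hne
    · rw [W_eq_monomial, dl_apply, coeff_monomial, if_neg]
      intro h
      obtain ⟨j, hj, hjl⟩ : ∃ j ∈ S, j ≠ l := by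
        by_contra hcon
        push Not at hcon
        apply hS
        ext x
        rw [Finset.mem_singleton]
        constructor
        · exact hcon x
        · rintro rfl
          obtain ⟨y, hy⟩ := hne
          rwa [← hcon y hy]
      rw [← bS_spec hm S hne] at hj
      obtain ⟨k, _, rfl⟩ := Finset.mem_image.mp hj
      have h1 := DFunLike.congr_fun h (bS hm S hne k)
      rw [Finsupp.single_apply, if_neg (Ne.symm hjl), Finsupp.finsetSum_apply] at h1
      have h2 : 0 < ∑ i, (Finsupp.single (bS hm S hne i) (2 ^ (i : ℕ))) (bS hm S hne k) := by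
        apply Finset.sum_pos' (fun _ _ => Nat.zero_le _)
        exact ⟨k, Finset.mem_univ k, by simp⟩
      omega
    · exact map_zero _
  · intro h
    exact absurd (Finset.mem_univ _) h

theorem spike_mem {d m : ℕ} (l : Fin d) :
    dl (Finsupp.single l (2 ^ m - 1)) ∈ PHD d (2 ^ m - 1) := by
  apply dl_mem
  · intro i
    by_cases h : i = l
    · exact ⟨m, by rw [h, Finsupp.single_eq_same]⟩
    · exact ⟨0, by rw [Finsupp.single_apply, if_neg (Ne.symm h)]; rfl⟩
  · exact Finsupp.degree_single _ _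


/-! ### Comparison of the two versions -/

theorem totalSq_eq {d : ℕ} (f : P d) : totalSq f = totalSqA d f := by
  rw [totalSqA, aeval_def]
  rfl

theorem Sq_eq {d : ℕ} (k : ℕ) (f : P d) : Sq k f = SqL d k f := by
  rw [Sq, totalSq_eq]
  rfl

theorem act_eq {d : ℕ} (w : Matrix (Fin d) (Fin d) (ZMod 2)) (f : P d) : act w f = actA w f := by
  rw [actA, aeval_def]
  rfl

/-- the functional attached to a homology class -/
noncomputable def toDual {d : ℕ} (y : H d) : Module.Dual (ZMod 2) (P d) :=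
  (MvPolynomial.basisMonomials (Fin d) (ZMod 2)).constr (ZMod 2) fun s => y s

theorem toDual_monomial {d : ℕ} (y : H d) (s : Fin d →₀ ℕ) : toDual y (monomial s 1) = y s := by
  have := (MvPolynomial.basisMonomials (Fin d) (ZMod 2)).constr_basis (ZMod 2)
    (fun s => y s) s
  rw [MvPolynomial.coe_basisMonomials] at this
  exact this

theorem pair_eq {d : ℕ} (y : H d) (f : P d) : pair y f = toDual y f := by
  conv_rhs => rw [f.as_sum]
  rw [map_sum, pair]
  refine Finset.sum_congr rfl fun s _ => ?_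
  have h1 : (monomial s (coeff s f) : P d) = coeff s f • monomial s 1 := by
    rw [smul_monomial, smul_eq_mul, mul_one]
  rw [h1, map_smul, toDual_monomial, smul_eq_mul, mul_comm]

theorem toDual_add {d : ℕ} (y y' : H d) : toDual (y + y') = toDual y + toDual y' := by
  apply (MvPolynomial.basisMonomials (Fin d) (ZMod 2)).ext
  intro s
  rw [MvPolynomial.coe_basisMonomials, LinearMap.add_apply]
  dsimp only
  rw [toDual_monomial, toDual_monomial, toDual_monomial]
  rfl

theorem toDual_sub {d : ℕ} (y y' : H d) : toDual (y - y') = toDual y - toDual y' := by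
  apply (MvPolynomial.basisMonomials (Fin d) (ZMod 2)).ext
  intro s
  rw [MvPolynomial.coe_basisMonomials, LinearMap.sub_apply]
  dsimp only
  rw [toDual_monomial, toDual_monomial, toDual_monomial]
  rfl

/-- the homology class attached to a functional -/
noncomputable def ofDual {d : ℕ} (φ : Module.Dual (ZMod 2) (P d)) : H d :=
  fun s => φ (monomial (Finsupp.equivFunOnFinite.symm s) 1)

theorem toDual_ofDual {d : ℕ} (φ : Module.Dual (ZMod 2) (P d)) : toDual (ofDual φ) = φ := by
  apply (MvPolynomial.basisMonomials (Fin d) (ZMod 2)).ext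
  intro s
  rw [MvPolynomial.coe_basisMonomials]
  dsimp only
  rw [toDual_monomial, ofDual]
  have h : Finsupp.equivFunOnFinite.symm (⇑s) = s := Finsupp.equivFunOnFinite.symm_apply_apply s
  rw [h]

theorem ofDual_toDual {d : ℕ} (y : H d) : ofDual (toDual y) = y := by
  funext s
  rw [ofDual, toDual_monomial]
  rfl

theorem toDual_mem {d n : ℕ} (y : H d) : PH n y ↔ toDual y ∈ PHD d n := by
  constructor
  · rintro ⟨h1, h2⟩
    refine ⟨fun s hs => ?_, fun k hk f => ?_⟩
    · rw [toDual_monomial]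
      apply h1
      rwa [Finsupp.degree_eq_sum] at hs
    · rw [← Sq_eq, ← pair_eq]
      exact h2 k hk f
  · rintro ⟨h1, h2⟩
    refine ⟨fun s hs => ?_, fun k hk f => ?_⟩
    · have := h1 (Finsupp.equivFunOnFinite.symm s) (by rw [Finsupp.degree_eq_sum]; exact hs)
      rw [toDual_monomial] at this
      exact this
    · rw [pair_eq, Sq_eq]
      exact h2 k hk f

theorem toDual_actH {d : ℕ} (w : Matrix (Fin d) (Fin d) (ZMod 2)) (y : H d) :
    toDual (actH w y) = actD w (toDual y) := by
  apply (MvPolynomial.basisMonomials (Fin d) (ZMod 2)).ext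
  intro s
  rw [MvPolynomial.coe_basisMonomials]
  dsimp only
  rw [toDual_monomial, actH, pair_eq, act_eq, actD_apply, monomial_eq_prod]

theorem toDual_kameko {d : ℕ} (y : H d) : toDual (kameko y) = (kam d).dualMap (toDual y) := by
  apply (MvPolynomial.basisMonomials (Fin d) (ZMod 2)).ext
  intro s
  rw [MvPolynomial.coe_basisMonomials]
  dsimp only
  rw [toDual_monomial, LinearMap.dualMap_apply, kam_monomial_one, kameko]
  split_ifs with h
  · rw [toDual_monomial]
    congr 1
    funext i
    obtain ⟨r, hr⟩ := h i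
    simp only [Finsupp.mapRange_apply]
    omega
  · exact (map_zero _).symm

/-- Kameko's map sends PH_n to PH_(d+2n). -/
theorem kameko_PH {d n : ℕ} {y : H d} (hy : PH n y) : PH (d + 2 * n) (kameko y) := by
  rw [toDual_mem, toDual_kameko]
  exact kamD_mem ((toDual_mem y).mp hy)

/-- The action of GL_d preserves PH_n. -/
theorem actH_PH {d n : ℕ} (w : Matrix (Fin d) (Fin d) (ZMod 2)) {y : H d} (hy : PH n y) :
    PH n (actH w y) := by
  rw [toDual_mem, toDual_actH]
  exact actD_mem w ((toDual_mem y).mp hy)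

theorem GL_mul_inv {d : ℕ} (w : GL (Fin d) (ZMod 2)) : w.1 * (w⁻¹ : GL (Fin d) (ZMod 2)).1 = 1 := by
  rw [← Units.val_mul, mul_inv_cancel, Units.val_one]

/-- Kameko's map commutes with the action of GL_d. -/
theorem kameko_actH {d : ℕ} (w : GL (Fin d) (ZMod 2)) (y : H d) :
    kameko (actH w.1 y) = actH w.1 (kameko y) := by
  rw [← ofDual_toDual (kameko (actH w.1 y)), toDual_kameko, toDual_actH,
    kamD_actD _ _ (GL_mul_inv w), ← toDual_kameko, ← toDual_actH, ofDual_toDual]

theorem kameko_add {d : ℕ} (y y' : H d) : kameko (y + y') = kameko y + kameko y' := by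
  funext t
  simp only [kameko, Pi.add_apply]
  split_ifs
  · rfl
  · simp

theorem kameko_sub {d : ℕ} (y y' : H d) : kameko (y - y') = kameko y - kameko y' := by
  funext t
  simp only [kameko, Pi.sub_apply]
  split_ifs
  · rfl
  · simp

theorem kameko_neg {d : ℕ} (y : H d) : kameko (-y) = -kameko y := by
  funext t
  simp only [kameko, Pi.neg_apply]
  split_ifs
  · rfl
  · simp

theorem kameko_zero {d : ℕ} : kameko (0 : H d) = 0 := by
  funext t
  simp only [kameko, Pi.zero_apply]
  split_ifs <;> rfl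

/-- Kameko's map sends the zero class to the zero class, so it induces a map on coinvariants. -/
theorem kameko_zeroClass {d n : ℕ} {y : H d} (hy : y ∈ zeroClass d n) :
    kameko y ∈ zeroClass d (d + 2 * n) := by
  induction hy using AddSubgroup.closure_induction with
  | mem z hz =>
    obtain ⟨w, y, hy, rfl⟩ := hz
    apply AddSubgroup.subset_closure
    exact ⟨w, kameko y, kameko_PH hy, by rw [kameko_sub, kameko_actH]⟩
  | zero =>
    rw [kameko_zero]
    exact AddSubgroup.zero_mem _
  | add x y _ _ hx hy =>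
    rw [kameko_add]
    exact AddSubgroup.add_mem _ hx hy
  | neg x _ hx =>
    rw [kameko_neg]
    exact AddSubgroup.neg_mem _ hx

/-! ### The main result -/

theorem class_ne_zero {d m : ℕ} (hm : d ≤ m) (hm0 : 0 < m) (l : Fin d) :
    ofDual (dl (Finsupp.single l (2 ^ m - 1))) ∉ zeroClass d (2 ^ m - 1) := by
  intro h
  have h1 : ∀ z ∈ zeroClass d (2 ^ m - 1), toDual z (F hm) = 0 := by
    intro z hz
    induction hz using AddSubgroup.closure_induction with
    | mem z hz =>
      obtain ⟨w, y, hy, rfl⟩ := hz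
      rw [toDual_sub, LinearMap.sub_apply, toDual_actH, actD_apply,
        F_invariant hm hm0 ((toDual_mem y).mp hy) _ _ (GL_mul_inv w), sub_self]
    | zero =>
      have : toDual (0 : H d) = 0 := by
        have h0 := toDual_sub (0 : H d) 0
        rwa [sub_self, sub_self] at h0
      rw [this]
      rfl
    | add x y _ _ hx hy => rw [toDual_add, LinearMap.add_apply, hx, hy, add_zero]
    | neg x _ hx =>
      have h2 := toDual_sub (0 : H d) x
      have : toDual (0 : H d) = 0 := by
        have h0 := toDual_sub (0 : H d) 0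
        rwa [sub_self, sub_self] at h0
      rw [zero_sub] at h2
      rw [h2, LinearMap.sub_apply, hx, this]
      simp
  have h2 := h1 _ h
  rw [toDual_ofDual, dl_F hm l] at h2
  exact absurd h2 (by decide)

/-- a transvection as an element of GL_d -/
noncomputable def tv {d : ℕ} (b a : Fin d) (h : b ≠ a) : GL (Fin d) (ZMod 2) :=
  Matrix.GeneralLinearGroup.mk'' (Matrix.transvection b a 1)
    (by rw [Matrix.det_transvection_of_ne b a h]; exact isUnit_one)

/-- the part of vec away from the four distinguished indices -/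
noncomputable def rvec {d : ℕ} (i1 i2 i3 i4 l : Fin d) (N : ℕ) : Fin d →₀ ℕ :=
  vec i1 i2 i3 i4 l N 0 0 0 0

theorem vec_eq_sum {d : ℕ} (i1 i2 i3 i4 l : Fin d) (N : ℕ) (h12 : i1 ≠ i2) (h13 : i1 ≠ i3)
    (h14 : i1 ≠ i4) (h23 : i2 ≠ i3) (h24 : i2 ≠ i4) (h34 : i3 ≠ i4) (a b c e : ℕ) :
    vec i1 i2 i3 i4 l N a b c e = Finsupp.single i1 a + Finsupp.single i2 b + Finsupp.single i3 c +
      Finsupp.single i4 e + rvec i1 i2 i3 i4 l N := by
  ext i
  simp only [rvec, vec, Finsupp.equivFunOnFinite_symm_apply_apply, Finsupp.add_apply,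
    Finsupp.single_apply]
  by_cases k1 : i = i1
  · subst k1
    simp [h12.symm, h13.symm, h14.symm]
  by_cases k2 : i = i2
  · subst k2
    simp [h12, h23.symm, h24.symm, k1]
  by_cases k3 : i = i3
  · subst k3
    simp [h13, h23, h34.symm, k1, k2]
  by_cases k4 : i = i4
  · subst k4
    simp [h14, h24, h34, k1, k2, k3]
  simp [k1, k2, k3, k4, Ne.symm k1, Ne.symm k2, Ne.symm k3, Ne.symm k4]

theorem vec_degree {d : ℕ} (i1 i2 i3 i4 l : Fin d) (N : ℕ) (h12 : i1 ≠ i2) (h13 : i1 ≠ i3)
    (h14 : i1 ≠ i4) (h23 : i2 ≠ i3) (h24 : i2 ≠ i4) (h34 : i3 ≠ i4) (a b c e : ℕ) :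
    (vec i1 i2 i3 i4 l N a b c e).degree = a + b + c + e + (rvec i1 i2 i3 i4 l N).degree := by
  rw [vec_eq_sum i1 i2 i3 i4 l N h12 h13 h14 h23 h24 h34]
  simp only [map_add, Finsupp.degree_single]

theorem dbl_degree {d : ℕ} (t : Fin d →₀ ℕ) : (dbl t).degree = d + 2 * t.degree := by
  have hdeg : ∀ v : Fin d →₀ ℕ, v.degree = ∑ i, v i := fun v => Finsupp.degree_eq_sum v
  rw [hdeg, hdeg, Finset.mul_sum]
  simp [dbl, Finset.sum_add_distrib, add_comm]

theorem kameko_mem {d n m : ℕ} (hn : n = 2 ^ m - 1) (i1 i2 i3 i4 l : Fin d) (h12 : i1 ≠ i2)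
    (h13 : i1 ≠ i3) (h14 : i1 ≠ i4) (h23 : i2 ≠ i3) (h24 : i2 ≠ i4) (h34 : i3 ≠ i4)
    (h1l : i1 ≠ l) (h2l : i2 ≠ l) (h3l : i3 ≠ l) (h4l : i4 ≠ l) :
    kameko (ofDual (dl (Finsupp.single l n))) ∈ zeroClass d (d + 2 * n) := by
  obtain ⟨N, hN⟩ : ∃ N, N = 2 * n + 1 := ⟨_, rfl⟩
  have hN' : N = 2 ^ (m + 1) - 1 := by
    have : 0 < 2 ^ m := by positivity
    rw [hN, hn, pow_succ]
    omega
  have hdbl : dbl (Finsupp.single l n) = vec i1 i2 i3 i4 l N 1 1 1 1 := by
    ext i
    simp only [dbl, vec, Finsupp.equivFunOnFinite_symm_apply_apply, Finsupp.single_apply]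
    by_cases hil : i = l
    · subst hil
      simp [h1l.symm, h2l.symm, h3l.symm, h4l.symm, hN]
    · simp [hil, Ne.symm hil]
  have hdeg : ∀ a b c e, a + b + c + e = 4 →
      (vec i1 i2 i3 i4 l N a b c e).degree = d + 2 * n := by
    intro a b c e h
    have h1 := dbl_degree (Finsupp.single l n)
    rw [hdbl, Finsupp.degree_single, vec_degree i1 i2 i3 i4 l N h12 h13 h14 h23 h24 h34] at h1
    rw [vec_degree i1 i2 i3 i4 l N h12 h13 h14 h23 h24 h34, ← h1, h]
  have hmem : ∀ a b c e, a + b + c + e = 4 → (∃ k, a = 2 ^ k - 1) → (∃ k, b = 2 ^ k - 1) →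
      (∃ k, c = 2 ^ k - 1) → (∃ k, e = 2 ^ k - 1) →
      PH (d + 2 * n) (ofDual (dl (vec i1 i2 i3 i4 l N a b c e))) := by
    intro a b c e h ha hb hc he
    rw [toDual_mem, toDual_ofDual]
    apply dl_mem _ _ (hdeg a b c e h)
    intro i
    simp only [vec, Finsupp.equivFunOnFinite_symm_apply_apply]
    split_ifs
    · exact ha
    · exact hb
    · exact hc
    · exact he
    · exact ⟨m + 1, hN'⟩
    · exact ⟨1, rfl⟩
  have s0 : ∃ k, 0 = 2 ^ k - 1 := ⟨0, rfl⟩
  have s1 : ∃ k, 1 = 2 ^ k - 1 := ⟨1, rfl⟩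
  have s3 : ∃ k, 3 = 2 ^ k - 1 := ⟨2, rfl⟩
  obtain ⟨y1, hy1⟩ : ∃ y : H d, y = ofDual (dl (vec i1 i2 i3 i4 l N 0 0 1 3)) := ⟨_, rfl⟩
  obtain ⟨y2, hy2⟩ : ∃ y : H d, y = ofDual (dl (vec i1 i2 i3 i4 l N 0 3 0 1)) := ⟨_, rfl⟩
  obtain ⟨y3, hy3⟩ : ∃ y : H d, y = ofDual (dl (vec i1 i2 i3 i4 l N 3 0 0 1)) := ⟨_, rfl⟩
  have hp1 : PH (d + 2 * n) y1 := hy1 ▸ hmem 0 0 1 3 rfl s0 s0 s1 s3
  have hp2 : PH (d + 2 * n) y2 := hy2 ▸ hmem 0 3 0 1 rfl s0 s3 s0 s1
  have hp3 : PH (d + 2 * n) y3 := hy3 ▸ hmem 3 0 0 1 rfl s3 s0 s0 s1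
  have key : kameko (ofDual (dl (Finsupp.single l n))) =
      (actH (tv i4 i3 h34.symm).1 y1 - y1) + (actH (tv i2 i3 h23).1 y2 - y2) +
      (actH (tv i1 i3 h13).1 y3 - y3) +
      (actH (tv i1 i3 h13).1 (actH (tv i1 i2 h12).1 y3) - actH (tv i1 i2 h12).1 y3) := by
    rw [← ofDual_toDual (kameko _)]
    conv_rhs => rw [← ofDual_toDual ((actH (tv i4 i3 h34.symm).1 y1 - y1) +
      (actH (tv i2 i3 h23).1 y2 - y2) + (actH (tv i1 i3 h13).1 y3 - y3) +
      (actH (tv i1 i3 h13).1 (actH (tv i1 i2 h12).1 y3) - actH (tv i1 i2 h12).1 y3))]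
    congr 1
    have hl : toDual (kameko (ofDual (dl (Finsupp.single l n)))) =
        dl (vec i1 i2 i3 i4 l N 1 1 1 1) := by
      refine LinearMap.ext fun f => ?_
      rw [toDual_kameko, toDual_ofDual, ← hdbl]
      exact coeff_kam _ f
    have t1 : toDual y1 = dl (vec i1 i2 i3 i4 l N 0 0 1 3) := by rw [hy1, toDual_ofDual]
    have t2 : toDual y2 = dl (vec i1 i2 i3 i4 l N 0 3 0 1) := by rw [hy2, toDual_ofDual]
    have t3 : toDual y3 = dl (vec i1 i2 i3 i4 l N 3 0 0 1) := by rw [hy3, toDual_ofDual]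
    rw [hl]
    simp only [toDual_add, toDual_sub, toDual_actH, t1, t2, t3]
    apply (MvPolynomial.basisMonomials (Fin d) (ZMod 2)).ext
    intro u
    rw [MvPolynomial.coe_basisMonomials]
    exact key_identity i1 i2 i3 i4 l N h12 h13 h14 h23 h24 h34 u
  rw [key]
  have hgen : ∀ (w : GL (Fin d) (ZMod 2)) (y : H d), PH (d + 2 * n) y →
      actH w.1 y - y ∈ zeroClass d (d + 2 * n) :=
    fun w y hy => AddSubgroup.subset_closure ⟨w, y, hy, rfl⟩
  exact AddSubgroup.add_mem _ (AddSubgroup.add_mem _ (AddSubgroup.add_mem _ (hgen _ _ hp1)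
    (hgen _ _ hp2)) (hgen _ _ hp3)) (hgen _ _ (actH_PH _ hp3))

/-- For every d at least 5 and every m at least d, Kameko's squaring operation on the
GL_d-coinvariants of PH_n is not injective in degree n = 2^m - 1. -/
theorem result : ∀ d m : ℕ, 5 ≤ d → d ≤ m → ¬ InjectiveInDegree d (2 ^ m - 1) := by
  intro d m hd hm hinj
  obtain ⟨l, hl⟩ : ∃ l : Fin d, l = ⟨4, by omega⟩ := ⟨_, rfl⟩
  have h1 := class_ne_zero hm (by omega) l
  have hp : PH (2 ^ m - 1) (ofDual (dl (Finsupp.single l (2 ^ m - 1)))) := by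
    rw [toDual_mem, toDual_ofDual]
    exact spike_mem l
  have h2 : kameko (ofDual (dl (Finsupp.single l (2 ^ m - 1)))) ∈
      zeroClass d (d + 2 * (2 ^ m - 1)) := by
    refine kameko_mem (m := m) rfl (⟨0, by omega⟩ : Fin d) ⟨1, by omega⟩ ⟨2, by omega⟩
      ⟨3, by omega⟩ l ?_ ?_ ?_ ?_ ?_ ?_ ?_ ?_ ?_ ?_ <;> simp [hl, Fin.ext_iff]
  have hz : PH (2 ^ m - 1) (0 : H d) := by
    rw [toDual_mem]
    have h0 := toDual_sub (0 : H d) 0
    rw [sub_self, sub_self] at h0
    rw [h0]
    exact (PHD d _).zero_mem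
  have h3 := hinj _ 0 hp hz (by rwa [kameko_zero, sub_zero])
  rw [sub_zero] at h3
  exact h1 h3

end Pool.Agent.Results.MP_ca28bb_gt.KamekoNotMono
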